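import Mathlib

/-!
# Subfields of transcendence degree one of `F(x_0,...,x_{k-1})` embed in `F(X)`
-/

set_option autoImplicit false

noncomputable section

open scoped RatFunc nonZeroDivisors

namespace Pool.Agent.H.MP_4c5958_al

open Polynomial

variable (F : Type*) [Field F] (k : ℕ)

abbrev RR : Type _ := MvPolynomial (Fin k) F

abbrev NN : Type _ := FractionRing (RR F k)

/-- Kronecker substitution -/
def kron (n : ℕ) : RR F k →ₐ[F] F[X] := MvPolynomial.aeval (fun i : Fin k => (X : F[X]) ^ (n ^ (i : ℕ)))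

variable {F k}

def kap (n : ℕ) (m : Fin k →₀ ℕ) : ℕ := ∑ i : Fin k, m i * n ^ (i : ℕ)

lemma digits_inj (n : ℕ) : ∀ (k : ℕ) (f g : Fin k → ℕ), (∀ i, f i < n) → (∀ i, g i < n) →
    ∑ i, f i * n ^ (i : ℕ) = ∑ i, g i * n ^ (i : ℕ) → f = g := by
  intro k
  induction k with
  | zero => intro f g _ _ _; funext i; exact i.elim0
  | succ k ih =>
    intro f g hf hg h
    have h1 : ∀ f : Fin (k + 1) → ℕ, ∑ i, f i * n ^ (i : ℕ) =
        f 0 + n * ∑ i : Fin k, f i.succ * n ^ (i : ℕ) := by
      intro f
      rw [Fin.sum_univ_succ, Finset.mul_sum]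
      congr 1
      · simp
      · refine Finset.sum_congr rfl fun i _ => ?_
        rw [Fin.val_succ, pow_succ]
        ring
    rw [h1 f, h1 g] at h
    have hn : 0 < n := lt_of_le_of_lt (Nat.zero_le _) (hf 0)
    have h0 : f 0 = g 0 := by
      have := congrArg (fun x => x % n) h
      simpa [Nat.add_mul_mod_self_left, Nat.mod_eq_of_lt (hf 0), Nat.mod_eq_of_lt (hg 0)] using this
    have h2 : ∑ i : Fin k, f i.succ * n ^ (i : ℕ) = ∑ i : Fin k, g i.succ * n ^ (i : ℕ) := by
      rw [h0] at h
      exact Nat.eq_of_mul_eq_mul_left hn (Nat.add_left_cancel h)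
    have h3 := ih (fun i => f i.succ) (fun i => g i.succ) (fun i => hf _) (fun i => hg _) h2
    funext i
    refine Fin.cases h0 (fun j => ?_) i
    exact congrFun h3 j

lemma kap_inj {n : ℕ} {m m' : Fin k →₀ ℕ} (hm : ∀ i, m i < n) (hm' : ∀ i, m' i < n)
    (h : kap n m = kap n m') : m = m' := by
  have := digits_inj n k m m' hm hm' h
  exact Finsupp.ext fun i => congrFun this i

lemma kron_monomial (n : ℕ) (m : Fin k →₀ ℕ) (c : F) :
    kron F k n (MvPolynomial.monomial m c) = C c * X ^ (kap n m) := by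
  unfold kron kap
  rw [MvPolynomial.aeval_monomial]
  congr 1
  rw [Finsupp.prod_fintype _ _ (fun i => pow_zero _), ← Finset.prod_pow_eq_pow_sum]
  refine Finset.prod_congr rfl fun i _ => ?_
  rw [← pow_mul, mul_comm]

/-- the Kronecker substitution is injective on polynomials of small degree -/
lemma kron_ne_zero {n : ℕ} {h : RR F k} (hh : ∀ m ∈ h.support, ∀ i, m i < n) (h0 : h ≠ 0) :
    kron F k n h ≠ 0 := by
  classical
  obtain ⟨m0, hm0⟩ := MvPolynomial.support_nonempty.mpr h0
  intro hz
  have h1 : kron F k n h = ∑ m ∈ h.support, C (h.coeff m) * X ^ (kap n m) := by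
    conv_lhs => rw [h.as_sum]
    rw [map_sum]
    exact Finset.sum_congr rfl fun m _ => kron_monomial n m _
  rw [hz] at h1
  have h2 := congrArg (fun p => Polynomial.coeff p (kap n m0)) h1
  simp only [coeff_zero, finsetSum_coeff, coeff_C_mul, coeff_X_pow, mul_ite, mul_one,
    mul_zero] at h2
  rw [Finset.sum_eq_single m0] at h2
  · rw [if_pos rfl] at h2
    exact (MvPolynomial.mem_support_iff.mp hm0) h2.symm
  · intro m hm hne
    rw [if_neg]
    intro he
    exact hne (kap_inj (hh m hm) (hh m0 hm0) he.symm)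
  · intro hcon
    exact absurd hm0 hcon

lemma small_of_totalDegree {n : ℕ} {h : RR F k} (hn : h.totalDegree < n) :
    ∀ m ∈ h.support, ∀ i, m i < n := by
  intro m hm i
  refine lt_of_le_of_lt ?_ hn
  refine le_trans ?_ (MvPolynomial.le_totalDegree hm)
  rw [Finsupp.sum_fintype _ _ (fun _ => rfl)]
  exact Finset.single_le_sum (f := fun i => m i) (fun _ _ => Nat.zero_le _) (Finset.mem_univ i)

/-! ### the local ring -/

variable (F k) in
def MM (n : ℕ) : Submonoid (RR F k) := F[X]⁰.comap (kron F k n).toRingHom.toMonoidHom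

lemma mem_MM {n : ℕ} {b : RR F k} : b ∈ MM F k n ↔ kron F k n b ≠ 0 := by
  unfold MM
  rw [Submonoid.mem_comap, mem_nonZeroDivisors_iff_ne_zero]
  rfl

lemma MM_le (n : ℕ) : MM F k n ≤ (RR F k)⁰ := by
  intro b hb
  rw [mem_nonZeroDivisors_iff_ne_zero]
  rintro rfl
  rw [mem_MM, map_zero] at hb
  exact hb rfl

variable (F k) in
/-- the local ring of the Kronecker curve, as a subring of the field -/
abbrev OO (n : ℕ) : Subalgebra (RR F k) (NN F k) :=
  Localization.subalgebra.ofField (NN F k) (MM F k n) (MM_le n)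

lemma mem_OO {n : ℕ} {x : NN F k} : x ∈ OO F k n ↔
    ∃ (a s : RR F k) (_ : s ∈ MM F k n), x = algebraMap _ (NN F k) a * (algebraMap _ (NN F k) s)⁻¹ :=
  Iff.rfl

instance (n : ℕ) : IsLocalization (MM F k n) (OO F k n) :=
  Localization.subalgebra.isLocalization_ofField _ _ _

instance (n : ℕ) : IsIntegrallyClosed (OO F k n) :=
  isIntegrallyClosed_of_isLocalization (R := RR F k) _ (MM F k n) (MM_le n)

instance (n : ℕ) : IsFractionRing (OO F k n) (NN F k) :=
  Localization.subalgebra.isFractionRing_ofField _ _ _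

/-- residue map -/
def ev (n : ℕ) : OO F k n →+* RatFunc F :=
  IsLocalization.lift (M := MM F k n)
    (g := (algebraMap F[X] (RatFunc F)).comp (kron F k n).toRingHom) (by
      intro y
      rw [isUnit_iff_ne_zero]
      have := mem_MM.mp y.2
      exact RatFunc.algebraMap_ne_zero this)

lemma ev_algebraMap (n : ℕ) (a : RR F k) :
    ev n (algebraMap (RR F k) (OO F k n) a) = algebraMap F[X] (RatFunc F) (kron F k n a) := by
  unfold ev
  rw [IsLocalization.lift_eq]
  rfl

lemma inv_mem {n : ℕ} (x : OO F k n) (hx : ev n x ≠ 0) : ((x : NN F k))⁻¹ ∈ OO F k n := by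
  obtain ⟨a, s, hs, hxe⟩ := mem_OO.mp x.2
  have hs0 : algebraMap (RR F k) (NN F k) s ≠ 0 := by
    intro h0
    have := (map_eq_zero_iff _ (IsFractionRing.injective (RR F k) (NN F k))).mp h0
    rw [this, mem_MM, map_zero] at hs
    exact hs rfl
  have ha : a ∈ MM F k n := by
    rw [mem_MM]
    intro h0
    apply hx
    have h1 : x * algebraMap (RR F k) (OO F k n) s = algebraMap (RR F k) (OO F k n) a := by
      apply Subtype.ext
      show (x : NN F k) * algebraMap (RR F k) (NN F k) s = algebraMap (RR F k) (NN F k) a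
      rw [hxe, mul_assoc, inv_mul_cancel₀ hs0, mul_one]
    have h2 := congrArg (ev n) h1
    rw [map_mul, ev_algebraMap, ev_algebraMap, h0, map_zero] at h2
    exact (mul_eq_zero.mp h2).resolve_right (RatFunc.algebraMap_ne_zero (mem_MM.mp hs))
  rw [mem_OO]
  refine ⟨s, a, ha, ?_⟩
  rw [hxe, mul_inv, inv_inv, mul_comm]

lemma algebraMap_mem (n : ℕ) (c : F) : algebraMap F (NN F k) c ∈ OO F k n := by
  rw [IsScalarTower.algebraMap_apply F (RR F k) (NN F k)]
  exact Subalgebra.algebraMap_mem _ _

/-- Fields algebraic over a subfield of the local ring embed in `F(X)`. -/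
theorem emb_of_subfield (n : ℕ) (F' : IntermediateField F (NN F k)) (hF' : ∀ x ∈ F', x ∈ OO F k n)
    (E : IntermediateField F (NN F k)) (hE : ∀ e ∈ E, IsAlgebraic F' e) :
    Nonempty (E →ₐ[F] RatFunc F) := by
  let ι : F' →+* OO F k n :=
    { toFun := fun x => ⟨x, hF' x x.2⟩
      map_one' := rfl
      map_mul' := fun _ _ => rfl
      map_zero' := rfl
      map_add' := fun _ _ => rfl }
  have hmem : ∀ e ∈ E, e ∈ OO F k n := by
    intro e he
    have h1 : IsIntegral F' e := (hE e he).isIntegral
    have h2 : IsIntegral (OO F k n) e := by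
      obtain ⟨p, hp, hpe⟩ := h1
      refine ⟨p.map ι, hp.map ι, ?_⟩
      rw [eval₂_map]
      exact hpe
    obtain ⟨y, hy⟩ := IsIntegrallyClosed.isIntegral_iff.mp h2
    rw [← hy]
    exact y.2
  let ψ : E →+* OO F k n :=
    { toFun := fun x => ⟨x, hmem x x.2⟩
      map_one' := rfl
      map_mul' := fun _ _ => rfl
      map_zero' := rfl
      map_add' := fun _ _ => rfl }
  refine ⟨{ (ev n).comp ψ with commutes' := ?_ }⟩
  intro c
  show ev n (ψ (algebraMap F E c)) = algebraMap F (RatFunc F) c
  have h1 : ψ (algebraMap F E c) = algebraMap (RR F k) (OO F k n) (algebraMap F (RR F k) c) := by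
    apply Subtype.ext
    show algebraMap F (NN F k) c = algebraMap (RR F k) (NN F k) (algebraMap F (RR F k) c)
    rw [← IsScalarTower.algebraMap_apply]
  rw [h1, ev_algebraMap, AlgHom.commutes, ← IsScalarTower.algebraMap_apply]

theorem gordan_alg (E : IntermediateField F (NN F k)) (hE : ∀ e ∈ E, IsAlgebraic F e) :
    Nonempty (E →ₐ[F] RatFunc F) := by
  refine emb_of_subfield 1 ⊥ ?_ E ?_
  · intro x hx
    obtain ⟨c, rfl⟩ := IntermediateField.mem_bot.mp hx
    exact algebraMap_mem 1 c
  · intro e he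
    exact (hE e he).tower_top _

theorem gordan_tr (E : IntermediateField F (NN F k)) (z : NN F k) (hz : Transcendental F z)
    (hE : ∀ e ∈ E, IsAlgebraic (IntermediateField.adjoin F {z}) e) :
    Nonempty (E →ₐ[F] RatFunc F) := by
  obtain ⟨f, g, hg, hzf⟩ := IsFractionRing.div_surjective (A := RR F k) z
  have hg0 : g ≠ 0 := nonZeroDivisors.ne_zero hg
  set n := max f.totalDegree g.totalDegree + 1 with hn
  have hfn : f.totalDegree < n := by omega
  have hgn : g.totalDegree < n := by omega
  have hgM : g ∈ MM F k n := mem_MM.mpr (kron_ne_zero (small_of_totalDegree hgn) hg0)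
  have hzO : z ∈ OO F k n := by
    rw [mem_OO]
    exact ⟨f, g, hgM, by rw [← hzf, div_eq_mul_inv]⟩
  set z' : OO F k n := ⟨z, hzO⟩ with hz'
  have hgz : ev n z' * algebraMap F[X] (RatFunc F) (kron F k n g) =
      algebraMap F[X] (RatFunc F) (kron F k n f) := by
    rw [← ev_algebraMap, ← ev_algebraMap, ← map_mul]
    congr 1
    apply Subtype.ext
    show z * algebraMap (RR F k) (NN F k) g = algebraMap (RR F k) (NN F k) f
    rw [← hzf, div_mul_cancel₀]
    intro h0
    exact hg0 ((map_eq_zero_iff _ (IsFractionRing.injective (RR F k) (NN F k))).mp h0)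
  have hevtr : Transcendental F (ev n z') := by
    apply RatFunc.transcendental_of_ne_C
    rintro ⟨c, hc⟩
    rw [hc] at hgz
    have h1 : kron F k n (f - MvPolynomial.C c * g) = 0 := by
      apply RatFunc.algebraMap_injective F
      rw [map_sub, map_sub, map_mul, map_mul, ← hgz, map_zero, sub_eq_zero]
      congr 1
      have : kron F k n (MvPolynomial.C c) = C c := (kron F k n).commutes c
      rw [this, RatFunc.algebraMap_C]
    have h2 : f - MvPolynomial.C c * g = 0 := by
      by_contra h0
      refine kron_ne_zero (small_of_totalDegree ?_) h0 h1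
      refine lt_of_le_of_lt (MvPolynomial.totalDegree_sub _ _) ?_
      have h3 : (MvPolynomial.C c * g).totalDegree ≤ g.totalDegree := by
        refine (MvPolynomial.totalDegree_mul _ _).trans ?_
        rw [MvPolynomial.totalDegree_C, zero_add]
      omega
    have h3 : z = algebraMap F (NN F k) c := by
      rw [← hzf, sub_eq_zero.mp h2, map_mul, mul_div_assoc, div_self, mul_one,
        IsScalarTower.algebraMap_apply F (RR F k) (NN F k)]
      · rfl
      · intro h0
        exact hg0 ((map_eq_zero_iff _ (IsFractionRing.injective (RR F k) (NN F k))).mp h0)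
    exact hz (h3 ▸ isAlgebraic_algebraMap c)
  refine emb_of_subfield n (IntermediateField.adjoin F {z}) ?_ E hE
  intro x hx
  obtain ⟨r, s, rfl⟩ := (IntermediateField.mem_adjoin_simple_iff F x).mp hx
  have hpol : ∀ r : F[X], ∃ y : OO F k n, (y : NN F k) = aeval z r ∧ ev n y = aeval (ev n z') r := by
    intro r
    induction r using Polynomial.induction_on' with
    | add p q hp hq =>
      obtain ⟨y, hy1, hy2⟩ := hp
      obtain ⟨w, hw1, hw2⟩ := hq
      refine ⟨y + w, ?_, ?_⟩
      · rw [map_add, ← hy1, ← hw1]; rfl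
      · rw [map_add, map_add, hy2, hw2]
    | monomial m c =>
      refine ⟨algebraMap (RR F k) (OO F k n) (MvPolynomial.C c) * z' ^ m, ?_, ?_⟩
      · rw [aeval_monomial, IsScalarTower.algebraMap_apply F (RR F k) (NN F k)]
        rfl
      · rw [map_mul, map_pow, ev_algebraMap, aeval_monomial]
        have : kron F k n (MvPolynomial.C c) = C c := (kron F k n).commutes c
        rw [this, RatFunc.algebraMap_C]
        rfl
  obtain ⟨y, hy1, hy2⟩ := hpol r
  obtain ⟨w, hw1, hw2⟩ := hpol s
  rw [← hy1, ← hw1]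
  by_cases hs : s = 0
  · have : (w : NN F k) = 0 := by rw [hw1, hs, map_zero]
    rw [this, div_zero]
    exact Subalgebra.zero_mem _
  · rw [div_eq_mul_inv]
    refine Subalgebra.mul_mem _ y.2 (inv_mem w ?_)
    rw [hw2]
    intro h0
    exact hs ((transcendental_iff.mp hevtr) s h0)

end Pool.Agent.H.MP_4c5958_al
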