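import Pool.Agent.H.MP_4c5958_al.Mobius
import Pool.Agent.H.MP_4c5958_al.Gordan

/-!
# No automorphism of order five on small subfields
-/

set_option autoImplicit false

noncomputable section

open scoped RatFunc nonZeroDivisors IntermediateField

namespace Pool.Agent.H.MP_4c5958_al

variable {F : Type*} [Field F]

theorem aut_trivial (hF : ∀ x : F, x ^ 2 + x - 1 ≠ 0) {E : Type*} [Field E] [Algebra F E]
    (j : E →ₐ[F] RatFunc F) (τ : E ≃ₐ[F] E) (h5 : ∀ x, τ (τ (τ (τ (τ x)))) = x) (x : E) :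
    τ x = x := by
  by_contra hne
  set e : E ≃ₐ[F] j.fieldRange := AlgEquiv.ofInjectiveField j with he
  by_cases hb : j.fieldRange = ⊥
  · have h1 : ((e x : j.fieldRange) : RatFunc F) ∈ (⊥ : IntermediateField F (RatFunc F)) := by
      rw [← hb]; exact (e x).2
    obtain ⟨c, hc⟩ := IntermediateField.mem_bot.mp h1
    have h2 : x = algebraMap F E c := by
      apply e.injective
      apply Subtype.ext
      rw [← hc, e.commutes]
      rfl
    apply hne
    rw [h2, τ.commutes]
  · set φ : RatFunc F ≃ₐ[F] j.fieldRange := RatFunc.Luroth.algEquiv hb with hφ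
    set τ' : RatFunc F ≃ₐ[F] RatFunc F := (((φ.trans e.symm).trans τ).trans e).trans φ.symm
      with hτ'
    have h1 : ∀ y, τ' y = φ.symm (e (τ (e.symm (φ y)))) := fun y => rfl
    obtain ⟨w, hw⟩ := mobius τ' (by
      intro y
      simp only [h1, AlgEquiv.apply_symm_apply, AlgEquiv.symm_apply_apply, h5]) (by
      refine ⟨φ.symm (e x), ?_⟩
      simp only [h1, AlgEquiv.apply_symm_apply, AlgEquiv.symm_apply_apply]
      intro h
      exact hne (e.injective (φ.symm.injective h)))
    exact hF w hw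

theorem aut_trivial_of_small (hF : ∀ x : F, x ^ 2 + x - 1 ≠ 0) {k : ℕ}
    (E : IntermediateField F (NN F k))
    (hE : (∀ e ∈ E, IsAlgebraic F e) ∨ ∃ z : NN F k, Transcendental F z ∧
      ∀ e ∈ E, IsAlgebraic (IntermediateField.adjoin F {z}) e)
    (ρ : NN F k ≃ₐ[F] NN F k) (hρ : ∀ x, ρ (ρ (ρ (ρ (ρ x)))) = x) (hst : ∀ x ∈ E, ρ x ∈ E) :
    ∀ x ∈ E, ρ x = x := by
  have hj : Nonempty (E →ₐ[F] RatFunc F) := by
    rcases hE with hE | ⟨z, hz, hE⟩
    · exact gordan_alg E hE
    · exact gordan_tr E z hz hE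
  obtain ⟨j⟩ := hj
  let τ0 : E →ₐ[F] E :=
    { toFun := fun x => ⟨ρ x, hst x x.2⟩
      map_one' := Subtype.ext (map_one ρ)
      map_mul' := fun x y => Subtype.ext (map_mul ρ _ _)
      map_zero' := Subtype.ext (map_zero ρ)
      map_add' := fun x y => Subtype.ext (map_add ρ _ _)
      commutes' := fun c => Subtype.ext (ρ.commutes c) }
  have hbij : Function.Bijective τ0 := by
    refine ⟨τ0.toRingHom.injective, fun y => ⟨τ0 (τ0 (τ0 (τ0 y))), Subtype.ext (hρ y)⟩⟩
  let τ : E ≃ₐ[F] E := AlgEquiv.ofBijective τ0 hbij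
  intro x hx
  have := aut_trivial hF j τ (fun y => Subtype.ext (hρ y)) ⟨x, hx⟩
  exact congrArg Subtype.val this

end Pool.Agent.H.MP_4c5958_al
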