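import Mathlib

/-!
# Automorphisms of order five of `F(X)` over `F`

If `F(X)` has an `F`-automorphism of order five then `X ^ 2 + X - 1` has a root in `F`.
-/

set_option autoImplicit false

noncomputable section

open scoped RatFunc

namespace Pool.Agent.H.MP_4c5958_al

open Polynomial

variable {F : Type*} [Field F]


lemma frac_linear (τ : RatFunc F ≃ₐ[F] RatFunc F) :
    ∃ a b c d : F, ((algebraMap F (RatFunc F)) c * RatFunc.X + (algebraMap F (RatFunc F)) d ≠ 0) ∧
      ((algebraMap F (RatFunc F)) c * RatFunc.X + (algebraMap F (RatFunc F)) d) * τ RatFunc.X = (algebraMap F (RatFunc F)) a * RatFunc.X + (algebraMap F (RatFunc F)) b := by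
  set f := τ RatFunc.X with hf
  have htop : IntermediateField.adjoin F {f} = ⊤ := by
    have h1 := IntermediateField.adjoin_map F {(RatFunc.X : RatFunc F)} (τ : RatFunc F →ₐ[F] RatFunc F)
    rw [RatFunc.adjoin_X, Set.image_singleton] at h1
    have h2 : ((τ : RatFunc F →ₐ[F] RatFunc F) (RatFunc.X : RatFunc F)) = f := rfl
    rw [h2] at h1
    rw [← h1, eq_top_iff]
    intro x _
    exact ⟨τ.symm x, trivial, τ.apply_symm_apply x⟩
  have h1 := RatFunc.finrank_eq_max_natDegree f
  rw [htop, IntermediateField.finrank_top] at h1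
  have hn : f.num.natDegree ≤ 1 := by
    rw [h1]; exact le_max_left _ _
  have hd : f.denom.natDegree ≤ 1 := by
    rw [h1]; exact le_max_right _ _
  obtain ⟨a, b, hab⟩ := Polynomial.exists_eq_X_add_C_of_natDegree_le_one hn
  obtain ⟨c, d, hcd⟩ := Polynomial.exists_eq_X_add_C_of_natDegree_le_one hd
  have hnum : algebraMap F[X] (RatFunc F) f.num = (algebraMap F (RatFunc F)) a * RatFunc.X + (algebraMap F (RatFunc F)) b := by
    rw [hab]; simp
  have hden : algebraMap F[X] (RatFunc F) f.denom = (algebraMap F (RatFunc F)) c * RatFunc.X + (algebraMap F (RatFunc F)) d := by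
    rw [hcd]; simp
  have hden0 : algebraMap F[X] (RatFunc F) f.denom ≠ 0 :=
    RatFunc.algebraMap_ne_zero f.denom_ne_zero
  refine ⟨a, b, c, d, hden ▸ hden0, ?_⟩
  rw [← hden, ← hnum]
  have h2 := RatFunc.num_div_denom f
  nth_rewrite 2 [← h2]
  rw [mul_div_cancel₀ _ hden0]

lemma lin_indep {p q r : F}
    (h : (algebraMap F (RatFunc F)) p * RatFunc.X ^ 2 + (algebraMap F (RatFunc F)) q * RatFunc.X + (algebraMap F (RatFunc F)) r = (0 : RatFunc F)) :
    p = 0 ∧ q = 0 ∧ r = 0 := by
  have h1 : algebraMap F[X] (RatFunc F) (C p * X ^ 2 + C q * X + C r) = 0 := by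
    simpa using h
  have h2 : (C p * X ^ 2 + C q * X + C r : F[X]) = 0 :=
    (RatFunc.algebraMap_injective F) (by rw [h1, map_zero])
  refine ⟨?_, ?_, ?_⟩
  · have := congrArg (fun f => Polynomial.coeff f 2) h2
    simpa [Polynomial.coeff_X, Polynomial.coeff_C] using this
  · have := congrArg (fun f => Polynomial.coeff f 1) h2
    simpa [Polynomial.coeff_X, Polynomial.coeff_C] using this
  · have := congrArg (fun f => Polynomial.coeff f 0) h2
    simpa [Polynomial.coeff_X, Polynomial.coeff_C] using this

theorem mobius (τ : RatFunc F ≃ₐ[F] RatFunc F) (h5 : ∀ x, τ (τ (τ (τ (τ x)))) = x)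
    (hne : ∃ x, τ x ≠ x) : ∃ w : F, w ^ 2 + w - 1 = 0 := by
  obtain ⟨a, b, c, d, hq, hr⟩ := frac_linear τ
  have hXne : τ RatFunc.X ≠ RatFunc.X := by
    intro hX
    obtain ⟨x, hx⟩ := hne
    apply hx
    have h1 : (τ : RatFunc F →ₐ[F] RatFunc F).comp (IsScalarTower.toAlgHom F F[X] (RatFunc F)) =
        IsScalarTower.toAlgHom F F[X] (RatFunc F) := by
      refine Polynomial.algHom_ext ?_
      simp [hX]
    have h2 : ∀ p : F[X], τ (algebraMap F[X] (RatFunc F) p) = algebraMap F[X] (RatFunc F) p :=
      fun p => DFunLike.congr_fun h1 p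
    rw [← RatFunc.num_div_denom x, map_div₀, h2, h2]
  -- iterates
  have hτ : ∀ y : RatFunc F, ∀ (u v : F), τ ((algebraMap F (RatFunc F)) u * y + (algebraMap F (RatFunc F)) v) = (algebraMap F (RatFunc F)) u * τ y + (algebraMap F (RatFunc F)) v := by
    intro y u v
    rw [map_add, map_mul, AlgEquiv.commutes, AlgEquiv.commutes]
  have hstep : ∀ y : RatFunc F, ((algebraMap F (RatFunc F)) c * y + (algebraMap F (RatFunc F)) d ≠ 0) →
      ((algebraMap F (RatFunc F)) c * y + (algebraMap F (RatFunc F)) d) * τ y = (algebraMap F (RatFunc F)) a * y + (algebraMap F (RatFunc F)) b →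
      ((algebraMap F (RatFunc F)) c * τ y + (algebraMap F (RatFunc F)) d ≠ 0) ∧ ((algebraMap F (RatFunc F)) c * τ y + (algebraMap F (RatFunc F)) d) * τ (τ y) = (algebraMap F (RatFunc F)) a * τ y + (algebraMap F (RatFunc F)) b := by
    intro y h1 h2
    constructor
    · rw [← hτ]
      intro h3
      exact h1 ((map_eq_zero_iff τ τ.injective).mp h3)
    · rw [← hτ, ← map_mul, h2, hτ]
  set X0 : RatFunc F := RatFunc.X with hX0
  obtain ⟨q1, r1⟩ := hstep X0 hq hr
  obtain ⟨q2, r2⟩ := hstep _ q1 r1
  obtain ⟨q3, r3⟩ := hstep _ q2 r2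
  obtain ⟨q4, r4⟩ := hstep _ q3 r3
  rw [h5 X0] at r4
  set X1 := τ X0
  set X2 := τ X1
  set X3 := τ X2
  set X4 := τ X3
  set A := (algebraMap F (RatFunc F)) a
  set B := (algebraMap F (RatFunc F)) b
  set C' := (algebraMap F (RatFunc F)) c
  set D := (algebraMap F (RatFunc F)) d
  -- the quadratic equation for X0
  set t : F := a + d with ht
  set δ : F := a * d - b * c with hδ
  set Q : F := t ^ 4 - 3 * t ^ 2 * δ + δ ^ 2 with hQ
  set S : F := δ * (t ^ 3 - 2 * t * δ) with hS
  have hquad : (algebraMap F (RatFunc F)) (Q * c) * X0 ^ 2 + (algebraMap F (RatFunc F)) (Q * d - S - (Q * a - S)) * X0 + (algebraMap F (RatFunc F)) (-(Q * b)) = 0 := by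
    have step : ∀ x y P R : RatFunc F, R * x = P → (C' * x + D) * y = A * x + B →
        (C' * P + D * R) * y = A * P + B * R := by
      intro x y P R g1 g2
      linear_combination R * g2 - (C' * y - A) * g1
    have s0 : (1 : RatFunc F) * X0 = X0 := one_mul _
    have s1 := step _ _ _ _ s0 hr
    have s2 := step _ _ _ _ s1 r1
    have s3 := step _ _ _ _ s2 r2
    have s4 := step _ _ _ _ s3 r3
    have s5 := step _ _ _ _ s4 r4
    have hkap : (algebraMap F (RatFunc F)) (Q * c) * X0 ^ 2 + (algebraMap F (RatFunc F)) (Q * d - S - (Q * a - S)) * X0 + (algebraMap F (RatFunc F)) (-(Q * b)) =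
        ((algebraMap F (RatFunc F)) (Q * c) * X0 + (algebraMap F (RatFunc F)) (Q * d - S)) * X0 - ((algebraMap F (RatFunc F)) (Q * a - S) * X0 + (algebraMap F (RatFunc F)) (Q * b)) := by
      rw [map_sub (algebraMap F (RatFunc F)) (Q * d - S) (Q * a - S), map_neg]
      ring
    rw [hkap, sub_eq_zero]
    have hRR : (algebraMap F (RatFunc F)) (Q * c) * X0 + (algebraMap F (RatFunc F)) (Q * d - S) = C' * (A * (A * (A * (A * X0 + B * 1) +
        B * (C' * X0 + D * 1)) + B * (C' * (A * X0 + B * 1) + D * (C' * X0 + D * 1))) +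
        B * (C' * (A * (A * X0 + B * 1) + B * (C' * X0 + D * 1)) +
          D * (C' * (A * X0 + B * 1) + D * (C' * X0 + D * 1)))) +
        D * (C' * (A * (A * (A * X0 + B * 1) + B * (C' * X0 + D * 1)) +
          B * (C' * (A * X0 + B * 1) + D * (C' * X0 + D * 1))) +
          D * (C' * (A * (A * X0 + B * 1) + B * (C' * X0 + D * 1)) +
            D * (C' * (A * X0 + B * 1) + D * (C' * X0 + D * 1)))) := by
      simp only [hQ, hS, ht, hδ, map_mul, map_sub, map_add, map_pow, map_ofNat]
      ring
    have hPP : (algebraMap F (RatFunc F)) (Q * a - S) * X0 + (algebraMap F (RatFunc F)) (Q * b) = A * (A * (A * (A * (A * X0 + B * 1) +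
        B * (C' * X0 + D * 1)) + B * (C' * (A * X0 + B * 1) + D * (C' * X0 + D * 1))) +
        B * (C' * (A * (A * X0 + B * 1) + B * (C' * X0 + D * 1)) +
          D * (C' * (A * X0 + B * 1) + D * (C' * X0 + D * 1)))) +
        B * (C' * (A * (A * (A * X0 + B * 1) + B * (C' * X0 + D * 1)) +
          B * (C' * (A * X0 + B * 1) + D * (C' * X0 + D * 1))) +
          D * (C' * (A * (A * X0 + B * 1) + B * (C' * X0 + D * 1)) +
            D * (C' * (A * X0 + B * 1) + D * (C' * X0 + D * 1)))) := by
      simp only [hQ, hS, ht, hδ, map_mul, map_sub, map_add, map_pow, map_ofNat]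
      ring
    rw [hRR, hPP]
    exact s5
  obtain ⟨h1, h2, h3⟩ := lin_indep hquad
  by_cases hQ0 : Q = 0
  · have hconst : ∀ e : F, X1 = (algebraMap F (RatFunc F)) e → False := by
      intro e he
      have h6 : X0 = (algebraMap F (RatFunc F)) e := by
        rw [← h5 X0]
        show τ (τ (τ (τ X1))) = (algebraMap F (RatFunc F)) e
        rw [he, AlgEquiv.commutes, AlgEquiv.commutes, AlgEquiv.commutes, AlgEquiv.commutes]
      have h7 := lin_indep (F := F) (p := 0) (q := 1) (r := -e) (by
        rw [map_zero, map_one, map_neg, ← h6]; ring)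
      exact one_ne_zero h7.2.1
    have hδ0 : δ ≠ 0 := by
      intro hδ0
      have h6 : C' * X1 = A := by
        have h7 : (C' * X0 + D) * (C' * X1 - A) = 0 := by
          have h8 : A * D - B * C' = 0 := by
            have := congrArg (algebraMap F (RatFunc F)) hδ0
            rwa [hδ, map_sub, map_mul, map_mul, map_zero] at this
          linear_combination C' * hr - h8
        rcases mul_eq_zero.mp h7 with h | h
        · exact absurd h hq
        · linear_combination h
      by_cases hc : c = 0
      · have hA : A = 0 := by rw [← h6]; simp [C', hc]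
        have hD : D ≠ 0 := by
          intro h0; apply hq; simp [C', hc, h0]
        apply hconst (b / d)
        have hr' : D * X1 = B := by
          have := hr
          rw [hA] at this
          simpa [C', hc] using this
        rw [map_div₀, eq_div_iff hD, mul_comm]
        exact hr'
      · apply hconst (a / c)
        have hC : C' ≠ 0 := by
          intro h0; exact hc ((map_eq_zero (algebraMap F (RatFunc F))).mp h0)
        rw [map_div₀, eq_div_iff hC, mul_comm]
        exact h6
    refine ⟨t ^ 2 / δ - 2, ?_⟩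
    field_simp
    rw [hQ] at hQ0
    linear_combination hQ0
  · exfalso
    have hc : c = 0 := by
      rcases mul_eq_zero.mp h1 with h | h
      · exact absurd h hQ0
      · exact h
    have hb : b = 0 := by
      have : Q * b = 0 := by linear_combination -h3
      rcases mul_eq_zero.mp this with h | h
      · exact absurd h hQ0
      · exact h
    have had : a = d := by
      have : Q * (d - a) = 0 := by linear_combination h2
      rcases mul_eq_zero.mp this with h | h
      · exact absurd h hQ0
      · linear_combination -h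
    apply hXne
    subst hc hb had
    have hA : (algebraMap F (RatFunc F)) a ≠ 0 := by
      intro h0; apply hq; simp [C', D, h0]
    have : (algebraMap F (RatFunc F)) a * X1 = (algebraMap F (RatFunc F)) a * X0 := by
      have := hr
      simp only [C', D, A, B, map_zero, zero_mul, zero_add, add_zero] at this
      exact this
    exact mul_left_cancel₀ hA this

end Pool.Agent.H.MP_4c5958_al
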