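import Pool.Agent.H.MP_4c5958_al.Skew3

/-!
# The cyclic shift of the variables
-/

set_option autoImplicit false

noncomputable section

namespace Pool.Agent.H.MP_4c5958_al

universe u

variable (F : Type u) [Field F]

/-- the cyclic shift of the variables of `F(x_0,...,x_4)` -/
def shift : NN F 5 ≃ₐ[F] NN F 5 :=
  IsFractionRing.algEquivOfAlgEquiv (A := RR F 5) (B := RR F 5)
    (MvPolynomial.renameEquiv F (finRotate 5))

lemma shift_alg (a : RR F 5) : shift F (algebraMap (RR F 5) (NN F 5) a) =
    algebraMap (RR F 5) (NN F 5) (MvPolynomial.rename (finRotate 5) a) := by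
  unfold shift
  rw [IsFractionRing.algEquivOfAlgEquiv_algebraMap]
  rfl

lemma rot5 : (finRotate 5 : Fin 5 → Fin 5) ∘ (finRotate 5) ∘ (finRotate 5) ∘ (finRotate 5) ∘
    (finRotate 5) = id := by
  funext i
  fin_cases i <;> rfl

lemma rename5 (a : RR F 5) : MvPolynomial.rename (finRotate 5) (MvPolynomial.rename (finRotate 5)
    (MvPolynomial.rename (finRotate 5) (MvPolynomial.rename (finRotate 5)
    (MvPolynomial.rename (finRotate 5) a)))) = a := by
  rw [MvPolynomial.rename_rename, MvPolynomial.rename_rename, MvPolynomial.rename_rename,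
    MvPolynomial.rename_rename]
  have h1 : (((((finRotate 5 : Fin 5 → Fin 5) ∘ (finRotate 5)) ∘ (finRotate 5)) ∘ (finRotate 5)) ∘
    (finRotate 5)) = id := rot5
  rw [h1, MvPolynomial.rename_id]
  rfl

lemma shift5 (x : NN F 5) : shift F (shift F (shift F (shift F (shift F x)))) = x := by
  obtain ⟨a, b, _, rfl⟩ := IsFractionRing.div_surjective (A := RR F 5) x
  simp only [map_div₀, shift_alg, rename5]

lemma shift_ne_one : shift F ≠ 1 := by
  intro h
  have h1 := congrArg (fun f : NN F 5 ≃ₐ[F] NN F 5 =>
    f (algebraMap (RR F 5) (NN F 5) (MvPolynomial.X 0))) h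
  simp only [shift_alg, MvPolynomial.rename_X, AlgEquiv.one_apply] at h1
  have h2 := IsFractionRing.injective (RR F 5) (NN F 5) h1
  have h3 := MvPolynomial.X_injective h2
  exact absurd h3 (by decide)

lemma shift_pow5 : shift F ^ 5 = 1 := by
  apply AlgEquiv.ext
  intro x
  have := shift5 F x
  simpa [pow_succ] using this

instance orderOf_shift : Fact (orderOf (shift F) = 5) :=
  ⟨by
    have : Fact (Nat.Prime 5) := ⟨by norm_num⟩
    exact orderOf_eq_prime (shift_pow5 F) (shift_ne_one F)⟩

end Pool.Agent.H.MP_4c5958_al
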