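import Pool.Agent.H.MP_4c5958_al.SkewVal3

/-!
# Skew Laurent series
-/

set_option autoImplicit false

noncomputable section

namespace Pool.Agent.H.MP_4c5958_al

open HahnSeries

universe u

variable {F N : Type u} [Field F] [Field N] [Algebra F N] (σ : N ≃ₐ[F] N)

/-- the operator `x ↦ a σⁿ(x)` -/
def tw (n : ℤ) (a : N) : Module.End F N :=
  (LinearMap.mulLeft F a).comp (σ ^ n).toLinearMap

lemma tw_apply (n : ℤ) (a x : N) : tw σ n a x = a * (σ ^ n) x := rfl

lemma tw_one_apply (n : ℤ) (a : N) : tw σ n a 1 = a := by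
  rw [tw_apply, map_one, mul_one]

lemma tw_mul (n m : ℤ) (a b : N) : tw σ n a * tw σ m b = tw σ (n + m) (a * (σ ^ n) b) := by
  ext x
  show tw σ n a (tw σ m b x) = _
  rw [tw_apply, tw_apply, tw_apply, map_mul, zpow_add, mul_assoc]
  rfl

lemma tw_add (n : ℤ) (a b : N) : tw σ n (a + b) = tw σ n a + tw σ n b := by
  ext x
  show tw σ n (a + b) x = tw σ n a x + tw σ n b x
  rw [tw_apply, tw_apply, tw_apply, add_mul]

lemma tw_zero (n : ℤ) : tw σ n 0 = 0 := by
  ext x
  show tw σ n 0 x = 0
  rw [tw_apply, zero_mul]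

lemma tw_sum {ι : Type*} (s : Finset ι) (n : ℤ) (f : ι → N) :
    tw σ n (∑ i ∈ s, f i) = ∑ i ∈ s, tw σ n (f i) := by
  classical
  induction s using Finset.induction_on with
  | empty => simp [tw_zero]
  | insert a s ha ih => rw [Finset.sum_insert ha, Finset.sum_insert ha, tw_add, ih]

lemma tw_algebraMap (c : F) : tw σ 0 (algebraMap F N c) = algebraMap F (Module.End F N) c := by
  ext x
  rw [tw_apply, Module.algebraMap_end_apply, Algebra.smul_def]
  simp

lemma tw_one : tw σ 0 1 = 1 := by
  have := tw_algebraMap σ 1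
  rwa [map_one, map_one] at this

/-- skew Laurent series, as a subalgebra of the Laurent series over `End_F(N)` -/
def SkD : Subalgebra F (HahnSeries ℤ (Module.End F N)) where
  carrier := {f | ∀ n, ∃ a, f.coeff n = tw σ n a}
  mul_mem' := by
    intro f g hf hg n
    rw [coeff_mul]
    choose a ha using hf
    choose b hb using hg
    refine ⟨∑ ij ∈ Finset.antidiagonal f.isPWO_support g.isPWO_support n, a ij.1 * (σ ^ ij.1) (b ij.2), ?_⟩
    rw [tw_sum]
    refine Finset.sum_congr rfl fun ij hij => ?_
    rw [ha, hb, tw_mul]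
    rw [Finset.mem_antidiagonal] at hij
    rw [hij.2.2]
  add_mem' := by
    intro f g hf hg n
    obtain ⟨a, ha⟩ := hf n
    obtain ⟨b, hb⟩ := hg n
    exact ⟨a + b, by rw [coeff_add, ha, hb, tw_add]⟩
  algebraMap_mem' := by
    intro c n
    rw [HahnSeries.algebraMap_apply]
    by_cases hn : n = 0
    · subst hn
      exact ⟨algebraMap F N c, by rw [tw_algebraMap]; simp⟩
    · exact ⟨0, by rw [tw_zero]; exact coeff_single_of_ne hn⟩

instance instRingSkD : Ring (SkD σ) :=
  @Subalgebra.toRing F (HahnSeries ℤ (Module.End F N)) _ _ _ (SkD σ)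

lemma instRingSkD_toSemiring : (instRingSkD σ).toSemiring = (SkD σ).toSemiring := by
  with_reducible_and_instances rfl

variable {σ}

/-- coefficients -/
def coD (n : ℤ) : SkD σ →+ N where
  toFun := fun f => ((f : HahnSeries ℤ (Module.End F N)).coeff n) 1
  map_zero' := rfl
  map_add' := fun _ _ => rfl

lemma coeff_eq (f : SkD σ) (n : ℤ) :
    (f : HahnSeries ℤ (Module.End F N)).coeff n = tw σ n (coD n f) := by
  obtain ⟨a, ha⟩ := f.2 n
  have h1 : coD n f = a := by
    show ((f : HahnSeries ℤ (Module.End F N)).coeff n) 1 = a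
    rw [ha, tw_one_apply]
  rw [h1, ha]

lemma coD_of_coeff {f : SkD σ} {n : ℤ} {a : N}
    (h : (f : HahnSeries ℤ (Module.End F N)).coeff n = tw σ n a) : coD n f = a := by
  show ((f : HahnSeries ℤ (Module.End F N)).coeff n) 1 = a
  rw [h, tw_one_apply]

lemma coD_eq_zero {f : SkD σ} {n : ℤ} :
    coD n f = 0 ↔ (f : HahnSeries ℤ (Module.End F N)).coeff n = 0 := by
  constructor
  · intro h; rw [coeff_eq, h, tw_zero]
  · intro h
    exact coD_of_coeff (h.trans (tw_zero σ n).symm)

lemma ext_coD {f g : SkD σ} (h : ∀ n, coD n f = coD n g) : f = g := by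
  apply Subtype.ext
  ext1
  funext n
  rw [coeff_eq, coeff_eq, h n]

lemma coD_mul (f g : SkD σ) (n : ℤ) : coD n (f * g) =
    ∑ ij ∈ Finset.antidiagonal (f : HahnSeries ℤ (Module.End F N)).isPWO_support
      (g : HahnSeries ℤ (Module.End F N)).isPWO_support n,
      coD ij.1 f * (σ ^ ij.1) (coD ij.2 g) := by
  apply coD_of_coeff
  rw [tw_sum]
  show ((f : HahnSeries ℤ (Module.End F N)) * (g : HahnSeries ℤ (Module.End F N))).coeff n = _
  rw [coeff_mul]
  refine Finset.sum_congr rfl fun ij hij => ?_
  rw [coeff_eq f, coeff_eq g, tw_mul]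
  rw [Finset.mem_antidiagonal] at hij
  rw [hij.2.2]

variable (σ) in
/-- the skew valuation on skew Laurent series -/
def svD : SV F N (SkD σ) σ where
  co := coD
  mul_co := by
    intro a b n m ha hb
    rw [coD_mul]
    by_cases hmem : (n, m) ∈ Finset.antidiagonal
        (a : HahnSeries ℤ (Module.End F N)).isPWO_support
        (b : HahnSeries ℤ (Module.End F N)).isPWO_support (n + m)
    · rw [Finset.sum_eq_single_of_mem _ hmem]
      rintro ⟨i, j⟩ hij hne
      rw [Finset.mem_antidiagonal] at hij
      obtain ⟨_, _, h3⟩ := hij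
      simp only at h3 ⊢
      rcases lt_trichotomy i n with h | h | h
      · rw [ha i h, zero_mul]
      · exact absurd (Prod.ext h (by simp only; omega)) hne
      · rw [hb j (by omega), map_zero, mul_zero]
    · have h0 : coD n a = 0 ∨ coD m b = 0 := by
        by_contra hcon
        push Not at hcon
        apply hmem
        rw [Finset.mem_antidiagonal]
        exact ⟨fun h => hcon.1 (coD_eq_zero.mpr h), fun h => hcon.2 (coD_eq_zero.mpr h), rfl⟩
      have h1 : coD n a * (σ ^ n) (coD m b) = 0 := by
        rcases h0 with h | h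
        · rw [h, zero_mul]
        · rw [h, map_zero, mul_zero]
      rw [h1]
      refine Finset.sum_eq_zero ?_
      rintro ⟨i, j⟩ hij
      have hij' := hij
      rw [Finset.mem_antidiagonal] at hij
      obtain ⟨_, _, h3⟩ := hij
      simp only at h3 ⊢
      rcases lt_trichotomy i n with h | h | h
      · rw [ha i h, zero_mul]
      · exfalso
        have : j = m := by omega
        subst h; subst this
        exact hmem hij'
      · rw [hb j (by omega), map_zero, mul_zero]
  exists_ord := by
    intro f hf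
    have hf' : (f : HahnSeries ℤ (Module.End F N)) ≠ 0 := fun h => hf (Subtype.ext h)
    refine ⟨(f : HahnSeries ℤ (Module.End F N)).order, ?_, ?_⟩
    · intro i hi
      exact coD_eq_zero.mpr (coeff_eq_zero_of_lt_order hi)
    · intro h
      exact hf' (coeff_order_eq_zero.mp (coD_eq_zero.mp h))
  co_alg := by
    intro c
    apply coD_of_coeff
    rw [tw_algebraMap]
    show (algebraMap F (HahnSeries ℤ (Module.End F N)) c).coeff 0 = _
    rw [HahnSeries.algebraMap_apply]
    simp
  co_alg' := by
    intro c n hn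
    apply coD_eq_zero.mpr
    show (algebraMap F (HahnSeries ℤ (Module.End F N)) c).coeff n = _
    rw [HahnSeries.algebraMap_apply]
    exact coeff_single_of_ne hn.ne

instance : NoZeroDivisors (SkD σ) where
  eq_zero_or_eq_zero_of_mul_eq_zero := by
    intro a b hab
    by_contra hcon
    push Not at hcon
    obtain ⟨n, x, hx⟩ := (svD σ).exists_HO hcon.1
    obtain ⟨m, y, hy⟩ := (svD σ).exists_HO hcon.2
    exact (hx.mul hy).ne_zero hab

instance : Nontrivial (SkD σ) := by
  refine ⟨⟨1, 0, ?_⟩⟩
  intro h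
  have h1 : (svD σ).co 0 1 = (svD σ).co 0 0 := by rw [h]
  rw [SV.co_one, map_zero] at h1
  exact one_ne_zero h1

instance : IsDomain (SkD σ) := @NoZeroDivisors.to_isDomain (SkD σ) (instRingSkD σ) _ _

end Pool.Agent.H.MP_4c5958_al
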