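import Pool.Agent.H.MP_4c5958_al.Skew

/-!
# Skew Laurent series: the centre and the dimension
-/

set_option autoImplicit false

noncomputable section

namespace Pool.Agent.H.MP_4c5958_al

open HahnSeries

universe u

variable {F N : Type u} [Field F] [Field N] [Algebra F N] (σ : N ≃ₐ[F] N)

/-- the fixed field of `σ` -/
abbrev kk : IntermediateField F N := IntermediateField.fixedField (Subgroup.zpowers σ)

variable {σ} in
lemma mem_kk {x : N} : x ∈ kk σ ↔ σ x = x := by
  rw [IntermediateField.mem_fixedField_iff]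
  constructor
  · intro h; exact h σ (Subgroup.mem_zpowers σ)
  · intro h f hf
    obtain ⟨i, rfl⟩ := Subgroup.mem_zpowers_iff.mp hf
    have h1 : σ ∈ MulAction.stabilizer (N ≃ₐ[F] N) x := by
      rw [MulAction.mem_stabilizer_iff]
      exact h
    exact Subgroup.zpow_mem _ h1 i

lemma zpow_kk (n : ℤ) (x : kk σ) : (σ ^ n) (x : N) = x := by
  have h1 := (IntermediateField.mem_fixedField_iff _ _).mp x.2
  exact h1 _ (Subgroup.zpow_mem_zpowers σ n)

/-- the centre of the skew Laurent series -/
def KK : Type u := HahnSeries ℤ (kk σ)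

instance instFieldKK : Field (KK σ) := inferInstanceAs (Field (HahnSeries ℤ (kk σ)))

instance algFK : Algebra F (KK σ) :=
  RingHom.toAlgebra ((C : kk σ →+* HahnSeries ℤ (kk σ)).comp (algebraMap F (kk σ)))

lemma algebraMap_FK (c : F) :
    algebraMap F (KK σ) c = (C (algebraMap F (kk σ) c) : HahnSeries ℤ (kk σ)) := rfl

variable {σ} in
/-- coefficients of an element of `K` -/
def KK.cf (x : KK σ) (q : ℤ) : kk σ := HahnSeries.coeff (show HahnSeries ℤ (kk σ) from x) q

/-- multiplication operators -/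
def psi : kk σ →+* Module.End F N where
  toFun := fun c => tw σ 0 (c : N)
  map_one' := tw_one σ
  map_mul' := fun a b => by
    rw [tw_mul]
    simp
  map_zero' := tw_zero σ 0
  map_add' := fun a b => tw_add σ 0 _ _

/-- multiplication by five -/
def mul5 : ℤ →+ ℤ := AddMonoidHom.mulLeft 5

lemma mul5_apply (n : ℤ) : mul5 n = 5 * n := rfl

lemma mul5_inj : Function.Injective mul5 := by
  intro a b h
  rw [mul5_apply, mul5_apply] at h
  omega

/-- the embedding `t ↦ s⁵` -/
def embK : HahnSeries ℤ (kk σ) →+* HahnSeries ℤ (Module.End F N) :=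
  (embDomainRingHom mul5 mul5_inj (by intro a b; rw [mul5_apply, mul5_apply]; omega)).comp
    { toFun := fun x => x.map (psi σ)
      map_one' := HahnSeries.map_one (psi σ).toMonoidWithZeroHom
      map_mul' := fun x y => HahnSeries.map_mul (psi σ).toNonUnitalRingHom
      map_zero' := by ext; simp
      map_add' := fun x y => HahnSeries.map_add (psi σ).toAddMonoidHom }

lemma embK_coeff (x : HahnSeries ℤ (kk σ)) (q : ℤ) : (embK σ x).coeff (5 * q) = tw σ 0 (x.coeff q : N) :=
  embDomain_mk_coeff (f := mul5) mul5_inj (by intro a b; rw [mul5_apply, mul5_apply]; omega)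
    (x := x.map (psi σ)) (a := q)

lemma embK_coeff' (x : HahnSeries ℤ (kk σ)) {n : ℤ} (hn : ¬ (5 : ℤ) ∣ n) : (embK σ x).coeff n = 0 := by
  refine embDomain_of_notMem_range ?_
  rintro ⟨q, hq⟩
  exact hn ⟨q, hq.symm⟩

variable [hσ : Fact (orderOf σ = 5)]

lemma zpow_five_mul (q : ℤ) : σ ^ (5 * q) = 1 := by
  have h1 : σ ^ 5 = 1 := by
    have := pow_orderOf_eq_one σ
    rwa [hσ.out] at this
  rw [zpow_mul]
  have h2 : σ ^ (5 : ℤ) = 1 := by
    have : σ ^ ((5 : ℕ) : ℤ) = 1 := by rw [zpow_natCast]; exact h1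
    exact_mod_cast this
  rw [h2, one_zpow]

lemma tw_five_mul (q : ℤ) (a : N) : tw σ (5 * q) a = tw σ 0 a := by
  ext x
  rw [tw_apply, tw_apply, zpow_five_mul, zpow_zero]

/-- the structure map of the `K`-algebra `D` (on Laurent series) -/
def embD0 : HahnSeries ℤ (kk σ) →+* SkD σ where
  toFun := fun x => ⟨embK σ x, by
    intro n
    by_cases hn : (5 : ℤ) ∣ n
    · obtain ⟨q, rfl⟩ := hn
      exact ⟨_, by rw [embK_coeff, tw_five_mul]⟩
    · exact ⟨0, by rw [embK_coeff' σ x hn, tw_zero]⟩⟩
  map_one' := Subtype.ext (map_one (embK σ))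
  map_mul' := fun x y => Subtype.ext (map_mul (embK σ) x y)
  map_zero' := Subtype.ext (map_zero (embK σ))
  map_add' := fun x y => Subtype.ext (map_add (embK σ) x y)

/-- the structure map of the `K`-algebra `D` -/
def embD : KK σ →+* SkD σ := embD0 σ

lemma coD_embD (x : KK σ) (q : ℤ) : coD (5 * q) (embD σ x) = x.cf q := by
  apply coD_of_coeff
  rw [tw_five_mul]
  exact embK_coeff σ (show HahnSeries ℤ (kk σ) from x) q

lemma coD_embD' (x : KK σ) {n : ℤ} (hn : ¬ (5 : ℤ) ∣ n) : coD n (embD σ x) = 0 := by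
  apply coD_eq_zero.mpr
  exact embK_coeff' σ (show HahnSeries ℤ (kk σ) from x) hn

lemma embD_comm (x : KK σ) (f : SkD σ) : embD σ x * f = f * embD σ x := by
  apply ext_coD
  intro n
  rw [coD_mul, coD_mul]
  refine Finset.sum_nbij' Prod.swap Prod.swap ?_ ?_ ?_ ?_ ?_
  · rintro ⟨i, j⟩ h
    rw [Finset.mem_antidiagonal] at h ⊢
    exact ⟨h.2.1, h.1, by simpa [add_comm] using h.2.2⟩
  · rintro ⟨i, j⟩ h
    rw [Finset.mem_antidiagonal] at h ⊢
    exact ⟨h.2.1, h.1, by simpa [add_comm] using h.2.2⟩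
  · intro _ _; rfl
  · intro _ _; rfl
  · rintro ⟨i, j⟩ _
    simp only [Prod.swap_prod_mk]
    by_cases hi : (5 : ℤ) ∣ i
    · obtain ⟨q, rfl⟩ := hi
      rw [coD_embD, zpow_five_mul, zpow_kk, mul_comm]
      rfl
    · rw [coD_embD' σ x hi, map_zero, zero_mul, mul_zero]

instance algKD : Algebra (KK σ) (SkD σ) := RingHom.toAlgebra' (embD σ) (embD_comm σ)

lemma algebraMap_KD (x : KK σ) : algebraMap (KK σ) (SkD σ) x = embD σ x := rfl

/-- scalars from `F` -/
lemma embD_algebraMap (c : F) : embD σ (algebraMap F (KK σ) c) = algebraMap F (SkD σ) c := by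
  apply ext_coD
  intro n
  by_cases hn : (5 : ℤ) ∣ n
  · obtain ⟨q, rfl⟩ := hn
    rw [coD_embD]
    by_cases hq : q = 0
    · subst hq
      rw [mul_zero]
      have := (svD σ).co_alg c
      refine Eq.trans ?_ this.symm
      have h1 : (algebraMap F (KK σ) c).cf 0 = algebraMap F (kk σ) c := coeff_single_same _ _
      rw [h1]
      rfl
    · have h1 : (algebraMap F (KK σ) c).cf q = 0 := coeff_single_of_ne hq
      rw [h1]
      symm
      apply coD_eq_zero.mpr
      show (algebraMap F (HahnSeries ℤ (Module.End F N)) c).coeff _ = _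
      rw [HahnSeries.algebraMap_apply]
      exact coeff_single_of_ne (by omega)
  · rw [coD_embD' σ _ hn]
    symm
    apply coD_eq_zero.mpr
    show (algebraMap F (HahnSeries ℤ (Module.End F N)) c).coeff n = _
    rw [HahnSeries.algebraMap_apply]
    exact coeff_single_of_ne (by rintro rfl; exact hn (dvd_zero 5))

instance : IsScalarTower F (KK σ) (SkD σ) :=
  IsScalarTower.of_algebraMap_eq fun c => (embD_algebraMap σ c).symm

end Pool.Agent.H.MP_4c5958_al
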