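import Pool.Agent.H.MP_4c5958_al.Skew2

/-!
# Skew Laurent series: the centre and the dimension
-/

set_option autoImplicit false

noncomputable section

namespace Pool.Agent.H.MP_4c5958_al

open HahnSeries

universe u

variable {F N : Type u} [Field F] [Field N] [Algebra F N] (σ : N ≃ₐ[F] N)

/-- constructor for elements of `K` -/
def mkK (f : ℤ → kk σ) (hf : BddBelow (Function.support f)) : KK σ :=
  (HahnSeries.ofSuppBddBelow f hf : HahnSeries ℤ (kk σ))

lemma cf_mkK (f : ℤ → kk σ) (hf : BddBelow (Function.support f)) (q : ℤ) :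
    (mkK σ f hf).cf q = f q := rfl

lemma ext_cf {x y : KK σ} (h : ∀ q, x.cf q = y.cf q) : x = y := by
  have h1 : (show HahnSeries ℤ (kk σ) from x) = (show HahnSeries ℤ (kk σ) from y) := by
    ext1
    funext q
    exact h q
  exact h1

/-- monomials `a s^j` -/
def mon (j : ℤ) (a : N) : SkD σ := ⟨single j (tw σ j a), by
  intro n
  by_cases h : n = j
  · subst h
    exact ⟨a, coeff_single_same _ _⟩
  · exact ⟨0, by rw [coeff_single_of_ne h, tw_zero]⟩⟩

lemma coD_mul_mon (f : SkD σ) (j : ℤ) (a : N) (n : ℤ) :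
    coD n (f * mon σ j a) = coD (n - j) f * (σ ^ (n - j)) a := by
  apply coD_of_coeff
  show ((f : HahnSeries ℤ (Module.End F N)) * single j (tw σ j a)).coeff n = _
  rw [coeff_mul_single, coeff_eq, tw_mul]
  congr 1
  ring

lemma coD_mon_mul (f : SkD σ) (j : ℤ) (a : N) (n : ℤ) :
    coD n (mon σ j a * f) = a * (σ ^ j) (coD (n - j) f) := by
  apply coD_of_coeff
  show (single j (tw σ j a) * (f : HahnSeries ℤ (Module.End F N))).coeff n = _
  rw [coeff_single_mul, coeff_eq, tw_mul]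
  congr 1
  ring

variable [hσ : Fact (orderOf σ = 5)]

lemma zpow_eq_one_iff5 (n : ℤ) : σ ^ n = 1 ↔ (5 : ℤ) ∣ n := by
  rw [← orderOf_dvd_iff_zpow_eq_one, hσ.out]
  rfl

omit hσ in
lemma exists_bound (f : SkD σ) : ∃ n : ℤ, ∀ i < n, coD i f = 0 := by
  by_cases h : f = 0
  · exact ⟨0, fun i _ => by rw [h, map_zero]⟩
  · obtain ⟨n, h1, _⟩ := (svD σ).exists_ord f h
    exact ⟨n, h1⟩

theorem center_eq (f : SkD σ) (hf : ∀ g : SkD σ, g * f = f * g) : ∃ x : KK σ, embD σ x = f := by
  have h1 : ∀ n : ℤ, ¬ (5 : ℤ) ∣ n → coD n f = 0 := by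
    intro n hn
    rw [← zpow_eq_one_iff5 σ] at hn
    obtain ⟨a, ha⟩ : ∃ a, (σ ^ n) a ≠ a := by
      by_contra hcon
      push Not at hcon
      exact hn (AlgEquiv.ext hcon)
    have h2 := congrArg (coD n) (hf (mon σ 0 a))
    rw [coD_mon_mul, coD_mul_mon] at h2
    simp only [sub_zero, zpow_zero] at h2
    have h3 : coD n f * ((σ ^ n) a - a) = 0 := by
      rw [mul_sub, ← h2]
      simp [mul_comm]
    exact (mul_eq_zero.mp h3).resolve_right (sub_ne_zero.mpr ha)
  have h2 : ∀ n : ℤ, coD n f ∈ kk σ := by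
    intro n
    rw [mem_kk]
    have h2 := congrArg (coD (n + 1)) (hf (mon σ 1 1))
    rw [coD_mon_mul, coD_mul_mon] at h2
    simpa using h2
  obtain ⟨n, hn⟩ := exists_bound σ f
  refine ⟨mkK σ (fun q => ⟨coD (5 * q) f, h2 _⟩) ?_, ?_⟩
  · refine ⟨-(n.natAbs : ℤ), ?_⟩
    intro q hq
    rw [Function.mem_support] at hq
    by_contra hlt
    apply hq
    apply Subtype.ext
    exact hn _ (by omega)
  · apply ext_coD
    intro m
    by_cases hm : (5 : ℤ) ∣ m
    · obtain ⟨q, rfl⟩ := hm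
      rw [coD_embD]
      rfl
    · rw [coD_embD' σ _ hm, h1 m hm]

instance : Algebra.IsCentral (KK σ) (SkD σ) where
  out := by
    intro f hf
    rw [Subalgebra.mem_center_iff] at hf
    obtain ⟨x, hx⟩ := center_eq σ f hf
    exact Algebra.mem_bot.mpr ⟨x, hx⟩

lemma finrank_kk : Module.finrank (kk σ) N = 5 := by
  have hcard : Nat.card (Subgroup.zpowers σ) = 5 := by
    rw [Nat.card_zpowers, hσ.out]
  have hfin : Finite (Subgroup.zpowers σ) := Nat.finite_of_card_ne_zero (by omega)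
  have := Fintype.ofFinite (Subgroup.zpowers σ)
  have h1 : Module.finrank (kk σ) N = Fintype.card (Subgroup.zpowers σ) :=
    FixedPoints.finrank_eq_card (Subgroup.zpowers σ) N
  rw [h1, Fintype.card_eq_nat_card, hcard]

instance finite_kk : Module.Finite (kk σ) N :=
  Module.finite_of_finrank_pos (by rw [finrank_kk]; norm_num)

/-- a basis of `N` over the fixed field -/
def bas : Module.Basis (Fin 5) (kk σ) N := Module.finBasisOfFinrankEq (kk σ) N (finrank_kk σ)

/-- the coordinate map -/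
def Phi : (Fin 5 × Fin 5 → KK σ) →ₗ[KK σ] SkD σ :=
  Fintype.linearCombination (KK σ) (fun p : Fin 5 × Fin 5 => mon σ ((p.2 : ℕ) : ℤ) (bas σ p.1))

lemma coD_Phi (x : Fin 5 × Fin 5 → KK σ) (q : ℤ) (j : Fin 5) :
    coD (5 * q + (j : ℕ)) (Phi σ x) = ∑ i, (x (i, j)).cf q • bas σ i := by
  have h0 : Phi σ x = ∑ p : Fin 5 × Fin 5,
      embD σ (x p) * mon σ ((p.2 : ℕ) : ℤ) (bas σ p.1) := by
    unfold Phi
    rw [Fintype.linearCombination_apply]
    exact Finset.sum_congr rfl fun p _ => Algebra.smul_def _ _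
  rw [h0, map_sum, Fintype.sum_prod_type]
  refine Finset.sum_congr rfl fun i _ => ?_
  rw [Finset.sum_eq_single j]
  · rw [coD_mul_mon]
    simp only [add_sub_cancel_right]
    rw [coD_embD, zpow_five_mul]
    rfl
  · intro j' _ hne
    rw [coD_mul_mon, coD_embD', zero_mul]
    intro hdvd
    simp only at hdvd
    apply hne
    apply Fin.ext
    have h1 := j.2
    have h2 := j'.2
    omega
  · intro h; exact absurd (Finset.mem_univ _) h

lemma Phi_injective : Function.Injective (Phi σ) := by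
  rw [injective_iff_map_eq_zero]
  intro x hx
  funext p
  obtain ⟨i, j⟩ := p
  apply ext_cf
  intro q
  have h1 := coD_Phi σ x q j
  rw [hx, map_zero] at h1
  have h2 := (Fintype.linearIndependent_iff.mp (bas σ).linearIndependent)
    (fun i => (x (i, j)).cf q) h1.symm i
  rw [h2]
  rfl

lemma Phi_surjective : Function.Surjective (Phi σ) := by
  intro f
  obtain ⟨n, hn⟩ := exists_bound σ f
  refine ⟨fun p => mkK σ (fun q => (bas σ).repr (coD (5 * q + (p.2 : ℕ)) f) p.1) ?_, ?_⟩
  · refine ⟨-(n.natAbs : ℤ) - 1, ?_⟩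
    intro q hq
    rw [Function.mem_support] at hq
    by_contra hlt
    apply hq
    have h1 := p.2.2
    rw [hn _ (by omega)]
    simp
  · apply ext_coD
    intro m
    obtain ⟨q, j, rfl⟩ : ∃ (q : ℤ) (j : Fin 5), m = 5 * q + (j : ℕ) := by
      refine ⟨m / 5, ⟨(m % 5).toNat, by omega⟩, ?_⟩
      simp only
      omega
    rw [coD_Phi]
    exact (bas σ).sum_repr _

theorem finrank_SkD : Module.finrank (KK σ) (SkD σ) = 25 := by
  have e : (Fin 5 × Fin 5 → KK σ) ≃ₗ[KK σ] SkD σ :=
    LinearEquiv.ofBijective (Phi σ) ⟨Phi_injective σ, Phi_surjective σ⟩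
  rw [← e.finrank_eq, Module.finrank_fintype_fun_eq_card]
  simp

theorem isSimpleRing_SkD : IsSimpleRing (SkD σ) := by
  have : Module.Finite (KK σ) (SkD σ) := Module.finite_of_finrank_pos (by rw [finrank_SkD]; norm_num)
  let _ : DivisionRing (SkD σ) := divisionRingOfFiniteDimensional (KK σ) (SkD σ)
  infer_instance

end Pool.Agent.H.MP_4c5958_al
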