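import Pool.Agent.H.MP_4c5958_al.Wedderburn
import Pool.Agent.H.MP_4c5958_al.Embed

/-!
# Skew valuations: the abstract final argument
-/

set_option autoImplicit false

noncomputable section

open scoped IntermediateField

namespace Pool.Agent.H.MP_4c5958_al

/-- A skew discrete valuation with coefficients on an `F`-algebra `B`. -/
structure SV (F N B : Type*) [Field F] [Field N] [Algebra F N] [Ring B] [Algebra F B]
    (σ : N ≃ₐ[F] N) where
  co : ℤ → B →+ N
  mul_co : ∀ {a b : B} {n m : ℤ}, (∀ i < n, co i a = 0) → (∀ i < m, co i b = 0) →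
    co (n + m) (a * b) = co n a * (σ ^ n) (co m b)
  exists_ord : ∀ a : B, a ≠ 0 → ∃ n, (∀ i < n, co i a = 0) ∧ co n a ≠ 0
  co_alg : ∀ c : F, co 0 (algebraMap F B c) = algebraMap F N c
  co_alg' : ∀ c : F, ∀ n < 0, co n (algebraMap F B c) = 0

namespace SV

section ring

variable {F N B : Type*} [Field F] [Field N] [Algebra F N] [Ring B] [Algebra F B]
    {σ : N ≃ₐ[F] N} (v : SV F N B σ)

/-- filtration -/
def Fil (n : ℤ) (a : B) : Prop := ∀ i < n, v.co i a = 0

/-- order and leading coefficient -/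
def HO (a : B) (n : ℤ) (x : N) : Prop := v.Fil n a ∧ v.co n a = x ∧ x ≠ 0

variable {v}

lemma Fil.mono {n m : ℤ} {a : B} (h : v.Fil n a) (hm : m ≤ n) : v.Fil m a :=
  fun i hi => h i (lt_of_lt_of_le hi hm)

lemma Fil.mul {n m : ℤ} {a b : B} (ha : v.Fil n a) (hb : v.Fil m b) : v.Fil (n + m) (a * b) := by
  intro i hi
  have h1 : i = (i - m) + m := by ring
  have h2 : i - m < n := by omega
  rw [h1, v.mul_co (fun j hj => ha j (by omega)) hb, ha _ h2, zero_mul]

lemma Fil.add {n : ℤ} {a b : B} (ha : v.Fil n a) (hb : v.Fil n b) : v.Fil n (a + b) := by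
  intro i hi
  rw [map_add, ha i hi, hb i hi, add_zero]

lemma Fil.neg {n : ℤ} {a : B} (ha : v.Fil n a) : v.Fil n (-a) := by
  intro i hi
  rw [map_neg, ha i hi, neg_zero]

lemma Fil.sub {n : ℤ} {a b : B} (ha : v.Fil n a) (hb : v.Fil n b) : v.Fil n (a - b) := by
  intro i hi
  rw [map_sub, ha i hi, hb i hi, sub_zero]

lemma Fil.zero (n : ℤ) : v.Fil n 0 := fun i _ => map_zero _

lemma Fil.sum {ι : Type*} {s : Finset ι} {f : ι → B} {n : ℤ} (h : ∀ i ∈ s, v.Fil n (f i)) :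
    v.Fil n (∑ i ∈ s, f i) := by
  intro j hj
  rw [map_sum]
  exact Finset.sum_eq_zero fun i hi => h i hi j hj

lemma Fil.alg (c : F) : v.Fil 0 (algebraMap F B c) := fun i hi => v.co_alg' c i hi

lemma Fil.one : v.Fil 0 (1 : B) := by
  have := Fil.alg (v := v) (1 : F)
  rwa [map_one] at this

lemma Fil.succ {n : ℤ} {a : B} (h : v.Fil n a) (h0 : v.co n a = 0) : v.Fil (n + 1) a := by
  intro i hi
  rcases (Int.lt_add_one_iff.mp hi).lt_or_eq with h1 | h1
  · exact h i h1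
  · rw [h1]; exact h0

lemma co_one : v.co 0 (1 : B) = 1 := by
  have := v.co_alg 1
  rwa [(algebraMap F B).map_one, (algebraMap F N).map_one] at this

lemma HO.uniq {a : B} {n m : ℤ} {x y : N} (h : v.HO a n x) (h' : v.HO a m y) : n = m ∧ x = y := by
  have : n = m := by
    rcases lt_trichotomy n m with hlt | heq | hgt
    · exact absurd (h.2.1.symm.trans (h'.1 n hlt)) h.2.2
    · exact heq
    · exact absurd (h'.2.1.symm.trans (h.1 m hgt)) h'.2.2
  subst this
  exact ⟨rfl, h.2.1.symm.trans h'.2.1⟩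

lemma HO.mul {a b : B} {n m : ℤ} {x y : N} (h : v.HO a n x) (h' : v.HO b m y) :
    v.HO (a * b) (n + m) (x * (σ ^ n) y) := by
  refine ⟨h.1.mul h'.1, ?_, ?_⟩
  · rw [v.mul_co h.1 h'.1, h.2.1, h'.2.1]
  · refine mul_ne_zero h.2.2 ?_
    intro h0
    exact h'.2.2 ((map_eq_zero_iff _ (σ ^ n).injective).mp h0)

lemma HO.ne_zero {a : B} {n : ℤ} {x : N} (h : v.HO a n x) : a ≠ 0 := by
  rintro rfl
  exact h.2.2 (h.2.1.symm.trans (map_zero _))

variable (v) in
lemma exists_HO {a : B} (ha : a ≠ 0) : ∃ n x, v.HO a n x := by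
  obtain ⟨n, h1, h2⟩ := v.exists_ord a ha
  exact ⟨n, _, h1, rfl, h2⟩

lemma HO.one : v.HO (1 : B) 0 1 := ⟨Fil.one, co_one, one_ne_zero⟩

lemma HO.congr {a : B} {n m : ℤ} {x y : N} (h : v.HO a n x) (hn : n = m) (hx : x = y) :
    v.HO a m y := by
  subst hn; subst hx; exact h

/-- a nonempty sum of terms of distinct orders is nonzero -/
lemma sum_ne_zero {ι : Type*} {s : Finset ι} (hs : s.Nonempty) {t : ι → B} {n : ι → ℤ}
    (hn : ∀ i ∈ s, ∀ j ∈ s, n i = n j → i = j) (ht : ∀ i ∈ s, ∃ x, v.HO (t i) (n i) x) :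
    ∑ i ∈ s, t i ≠ 0 := by
  intro h0
  obtain ⟨i0, hi0, hmin⟩ := s.exists_min_image n hs
  obtain ⟨x, hx⟩ := ht i0 hi0
  have h1 : v.co (n i0) (∑ i ∈ s, t i) = x := by
    rw [map_sum, Finset.sum_eq_single i0]
    · exact hx.2.1
    · intro j hj hne
      obtain ⟨y, hy⟩ := ht j hj
      apply hy.1
      rcases (hmin j hj).lt_or_eq with h | h
      · exact h
      · exact absurd (hn _ hj _ hi0 h.symm) hne
    · intro h; exact absurd hi0 h
  rw [h0, map_zero] at h1
  exact hx.2.2 h1.symm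

end ring

section field

variable {F N B : Type*} [Field F] [Field N] [Algebra F N] [DivisionRing B] [Algebra F B]
    {σ : N ≃ₐ[F] N} {v : SV F N B σ}

lemma HO.inv {a : B} {n : ℤ} {x : N} (h : v.HO a n x) : ∃ y, v.HO a⁻¹ (-n) y ∧ x * (σ ^ n) y = 1 := by
  obtain ⟨m, y, hy⟩ := v.exists_HO (inv_ne_zero h.ne_zero)
  have h1 := h.mul hy
  rw [mul_inv_cancel₀ h.ne_zero] at h1
  obtain ⟨h2, h3⟩ := h1.uniq HO.one
  have : m = -n := by omega
  subst this
  exact ⟨y, hy, h3⟩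

/-- conjugation -/
lemma HO.conj {a p : B} {n m : ℤ} {x z : N} (h : v.HO a n x) (hp : v.HO p m z) :
    ∃ y, v.HO (p * a * p⁻¹) n y ∧ y * (σ ^ n) z = z * (σ ^ m) x := by
  have hne : p * a * p⁻¹ ≠ 0 := by
    refine mul_ne_zero (mul_ne_zero hp.ne_zero h.ne_zero) (inv_ne_zero hp.ne_zero)
  obtain ⟨n', y, hy⟩ := v.exists_HO hne
  have h1 := hy.mul hp
  rw [mul_assoc, inv_mul_cancel₀ hp.ne_zero, mul_one] at h1
  obtain ⟨h2, h3⟩ := h1.uniq (hp.mul h)
  have : n' = n := by omega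
  subst this
  exact ⟨y, hy, h3⟩

end field

section main

variable {F N B L : Type*} [Field F] [Field N] [Algebra F N] [DivisionRing B] [Algebra F B]
    {σ : N ≃ₐ[F] N} {v : SV F N B σ} [Field L] [Algebra F L] [Algebra L B] [IsScalarTower F L B]
    [Algebra.IsCentral L B] [FiniteDimensional L B]

/-- Case 1: leading coefficients commute -/
lemma approx_one (h25 : Module.finrank L B = 25) (h5 : (5 : F) ≠ 0)
    (hc : ∀ a b n x m y, v.HO a n x → v.HO b m y → x * (σ ^ n) y = y * (σ ^ m) x)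
    {a : B} {n : ℤ} (ha : v.Fil n a) : ∃ ℓ : L, v.Fil (n + 1) (a - algebraMap L B ℓ) := by
  by_cases h0 : v.co n a = 0
  · refine ⟨0, ?_⟩
    rw [map_zero, sub_zero]
    exact ha.succ h0
  have hHO : v.HO a n (v.co n a) := ⟨ha, rfl, h0⟩
  have hint : IsIntegral L a := Algebra.IsIntegral.isIntegral a
  obtain ⟨r, hdvd, d, hd, T, hT⟩ : ∃ r : ℕ, r ∣ 25 ∧ ∃ d : Fin r → B, (∀ i, d i ≠ 0) ∧
      ∃ T : L, ∑ i, d i * a * (d i)⁻¹ = algebraMap L B T :=
    ⟨_, h25 ▸ natDegree_dvd (L := L) a, wedderburn_sum (E := B) hint⟩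
  have hrF : (r : F) ≠ 0 := by
    have h1 : r ∣ 5 ^ 2 := by simpa using hdvd
    obtain ⟨j, _, hj⟩ := (Nat.dvd_prime_pow (by norm_num)).mp h1
    rw [hj]
    push_cast
    exact pow_ne_zero _ h5
  have hterm : ∀ i, v.Fil (n + 1) (d i * a * (d i)⁻¹ - a) := by
    intro i
    obtain ⟨m, z, hz⟩ := v.exists_HO (hd i)
    obtain ⟨y, hy, hyz⟩ := hHO.conj hz
    have h1 := hc _ _ _ _ _ _ hHO hz
    have h2 : y = v.co n a := by
      have h3 : y * (σ ^ n) z = v.co n a * (σ ^ n) z := hyz.trans h1.symm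
      refine mul_right_cancel₀ ?_ h3
      intro h4
      exact hz.2.2 ((map_eq_zero_iff _ (σ ^ n).injective).mp h4)
    refine (hy.1.sub ha).succ ?_
    rw [map_sub, hy.2.1, h2, sub_self]
  have hsum : v.Fil (n + 1) (algebraMap L B T - (r : B) * a) := by
    have h1 : algebraMap L B T - (r : B) * a = ∑ i : Fin r, (d i * a * (d i)⁻¹ - a) := by
      rw [Finset.sum_sub_distrib, ← hT, Finset.sum_const, Finset.card_univ, Fintype.card_fin,
        nsmul_eq_mul]
    rw [h1]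
    exact Fil.sum fun i _ => hterm i
  refine ⟨algebraMap F L ((r : F)⁻¹) * T, ?_⟩
  have h2 : a - algebraMap L B (algebraMap F L ((r : F)⁻¹) * T) =
      -(algebraMap F B ((r : F)⁻¹) * (algebraMap L B T - (r : B) * a)) := by
    have h3 : algebraMap F B ((r : F)⁻¹) * (r : B) = 1 := by
      have : (r : B) = algebraMap F B (r : F) := by simp
      rw [this, ← map_mul, inv_mul_cancel₀ hrF, map_one]
    rw [mul_sub, ← mul_assoc, h3, one_mul, map_mul, ← IsScalarTower.algebraMap_apply]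
    abel
  rw [h2]
  have h4 := (Fil.alg (v := v) ((r : F)⁻¹)).mul hsum
  rw [zero_add] at h4
  exact h4.neg

lemma approx (h25 : Module.finrank L B = 25) (h5 : (5 : F) ≠ 0)
    (hc : ∀ a b n x m y, v.HO a n x → v.HO b m y → x * (σ ^ n) y = y * (σ ^ m) x)
    {a : B} {n : ℤ} (ha : v.Fil n a) (j : ℕ) :
    ∃ ℓ : L, v.Fil (n + j) (a - algebraMap L B ℓ) := by
  induction j with
  | zero => exact ⟨0, by simpa using ha⟩
  | succ j ih =>
    obtain ⟨ℓ, hℓ⟩ := ih
    obtain ⟨ℓ', hℓ'⟩ := approx_one h25 h5 hc hℓ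
    refine ⟨ℓ + ℓ', ?_⟩
    have h1 : a - algebraMap L B (ℓ + ℓ') = a - algebraMap L B ℓ - algebraMap L B ℓ' := by
      rw [map_add]; abel
    rw [h1]
    have h2 : n + ((j + 1 : ℕ) : ℤ) = n + j + 1 := by push_cast; ring
    rw [h2]
    exact hℓ'

lemma exists_Fil (a : B) : ∃ n, v.Fil n a := by
  by_cases h : a = 0
  · exact ⟨0, h ▸ Fil.zero 0⟩
  · obtain ⟨n, x, hx⟩ := v.exists_HO h
    exact ⟨n, hx.1⟩

theorem case_one (h25 : Module.finrank L B = 25) (h5 : (5 : F) ≠ 0)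
    (hc : ∀ a b n x m y, v.HO a n x → v.HO b m y → x * (σ ^ n) y = y * (σ ^ m) x) : False := by
  have hcomm : ∀ a b : B, a * b = b * a := by
    intro a b
    by_contra hne
    obtain ⟨M, x, hx⟩ := v.exists_HO (sub_ne_zero.mpr hne)
    obtain ⟨n, hn⟩ := exists_Fil (v := v) a
    obtain ⟨m, hm⟩ := exists_Fil (v := v) b
    obtain ⟨ℓ, hℓ⟩ := approx (L := L) h25 h5 hc hn (M + 1 - n - m).toNat
    have h1 : a * b - b * a = (a - algebraMap L B ℓ) * b - b * (a - algebraMap L B ℓ) := by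
      rw [sub_mul, mul_sub, Algebra.commutes ℓ b]
      abel
    have h2 : v.Fil (M + 1) (a * b - b * a) := by
      rw [h1]
      refine ((hℓ.mul hm).mono ?_).sub ((hm.mul hℓ).mono ?_)
      · have := Int.self_le_toNat (M + 1 - n - m); omega
      · have := Int.self_le_toNat (M + 1 - n - m); omega
    exact hx.2.2 (hx.2.1.symm.trans (h2 M (by omega)))
  have h1 : (⊤ : Subalgebra L B) ≤ ⊥ := by
    refine le_trans ?_ (Algebra.IsCentral.out (K := L) (D := B))
    intro x _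
    rw [Subalgebra.mem_center_iff]
    intro b
    exact hcomm b x
  have h2 : Module.finrank L B = 1 :=
    Subalgebra.bot_eq_top_iff_finrank_eq_one.mp (le_antisymm bot_le h1)
  omega

end main

end SV

end Pool.Agent.H.MP_4c5958_al
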