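import Pool.Agent.H.MP_4c5958_al.SkewVal

/-!
# Skew valuations: residue fields, transcendence degree
-/

set_option autoImplicit false

noncomputable section

open scoped IntermediateField

namespace Pool.Agent.H.MP_4c5958_al

namespace SV

section ring

variable {F N B : Type*} [Field F] [Field N] [Algebra F N] [Ring B] [Algebra F B]
    {σ : N ≃ₐ[F] N} (v : SV F N B σ)

/-- restriction of a skew valuation along an injective homomorphism -/
def comap {C : Type*} [Ring C] [Algebra F C] (g : C →ₐ[F] B) (hg : Function.Injective g) :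
    SV F N C σ where
  co := fun n => (v.co n).comp g.toRingHom.toAddMonoidHom
  mul_co := by
    intro a b n m ha hb
    show v.co (n + m) (g (a * b)) = v.co n (g a) * (σ ^ n) (v.co m (g b))
    rw [map_mul]
    exact v.mul_co ha hb
  exists_ord := by
    intro a ha
    exact v.exists_ord (g a) (by rwa [Ne, map_eq_zero_iff g hg])
  co_alg := by
    intro c
    show v.co 0 (g (algebraMap F C c)) = _
    rw [AlgHom.commutes, v.co_alg]
  co_alg' := by
    intro c n hn
    show v.co n (g (algebraMap F C c)) = _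
    rw [AlgHom.commutes, v.co_alg' c n hn]

lemma comap_HO {C : Type*} [Ring C] [Algebra F C] (g : C →ₐ[F] B) (hg : Function.Injective g)
    (c : C) (n : ℤ) (x : N) : (v.comap g hg).HO c n x ↔ v.HO (g c) n x := Iff.rfl

lemma comap_Fil {C : Type*} [Ring C] [Algebra F C] (g : C →ₐ[F] B) (hg : Function.Injective g)
    (c : C) (n : ℤ) : (v.comap g hg).Fil n c ↔ v.Fil n (g c) := Iff.rfl

lemma comap_co {C : Type*} [Ring C] [Algebra F C] (g : C →ₐ[F] B) (hg : Function.Injective g)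
    (c : C) (n : ℤ) : (v.comap g hg).co n c = v.co n (g c) := rfl

variable {v}

lemma co_mul0 {a b : B} (ha : v.Fil 0 a) (hb : v.Fil 0 b) :
    v.co 0 (a * b) = v.co 0 a * v.co 0 b := by
  have := v.mul_co ha hb
  simpa using this

lemma Fil.mul0 {a b : B} (ha : v.Fil 0 a) (hb : v.Fil 0 b) : v.Fil 0 (a * b) := by
  simpa using ha.mul hb

lemma Fil.pow0 {a : B} (ha : v.Fil 0 a) (n : ℕ) : v.Fil 0 (a ^ n) := by
  induction n with
  | zero => rw [pow_zero]; exact Fil.one
  | succ n ih => rw [pow_succ]; exact ih.mul0 ha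

lemma co_pow0 {a : B} (ha : v.Fil 0 a) (n : ℕ) : v.co 0 (a ^ n) = v.co 0 a ^ n := by
  induction n with
  | zero => rw [pow_zero, pow_zero, co_one]
  | succ n ih => rw [pow_succ, pow_succ, co_mul0 (ha.pow0 n) ha, ih]

lemma HO.pow {a : B} {n : ℤ} {x : N} (h : v.HO a n x) (i : ℕ) : ∃ y, v.HO (a ^ i) (i * n) y := by
  induction i with
  | zero => exact ⟨1, by simpa using HO.one⟩
  | succ i ih =>
    obtain ⟨y, hy⟩ := ih
    refine ⟨_, (pow_succ a i) ▸ (hy.mul h).congr ?_ rfl⟩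
    push_cast; ring

variable (v)

/-- the valuation ring -/
def vring : Subalgebra F B where
  carrier := {a | v.Fil 0 a}
  mul_mem' := fun ha hb => ha.mul0 hb
  one_mem' := Fil.one
  add_mem' := fun ha hb => ha.add hb
  zero_mem' := Fil.zero 0
  algebraMap_mem' := fun c => Fil.alg c

/-- the residue map -/
def resHom : v.vring →ₐ[F] N where
  toFun := fun a => v.co 0 a
  map_one' := co_one
  map_mul' := fun a b => co_mul0 a.2 b.2
  map_zero' := map_zero _
  map_add' := fun _ _ => map_add _ _ _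
  commutes' := fun c => v.co_alg c

end ring

section field

variable {F N B : Type*} [Field F] [Field N] [Algebra F N] [DivisionRing B] [Algebra F B]
    {σ : N ≃ₐ[F] N} (v : SV F N B σ)

/-- the residue field -/
def res : IntermediateField F N where
  carrier := {x | ∃ a, v.Fil 0 a ∧ v.co 0 a = x}
  mul_mem' := by
    rintro _ _ ⟨a, ha, rfl⟩ ⟨b, hb, rfl⟩
    exact ⟨a * b, ha.mul0 hb, co_mul0 ha hb⟩
  one_mem' := ⟨1, Fil.one, co_one⟩
  add_mem' := by
    rintro _ _ ⟨a, ha, rfl⟩ ⟨b, hb, rfl⟩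
    exact ⟨a + b, ha.add hb, map_add _ _ _⟩
  zero_mem' := ⟨0, Fil.zero 0, map_zero _⟩
  algebraMap_mem' := fun c => ⟨_, Fil.alg c, v.co_alg c⟩
  inv_mem' := by
    rintro _ ⟨a, ha, rfl⟩
    by_cases h0 : v.co 0 a = 0
    · rw [h0, inv_zero]
      exact ⟨0, Fil.zero 0, map_zero _⟩
    · have h1 : v.HO a 0 (v.co 0 a) := ⟨ha, rfl, h0⟩
      obtain ⟨y, hy, hxy⟩ := h1.inv
      rw [neg_zero] at hy
      refine ⟨a⁻¹, hy.1, ?_⟩
      rw [hy.2.1]
      have h2 : v.co 0 a * y = 1 := by simpa using hxy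
      exact (eq_inv_of_mul_eq_one_right h2)

lemma mem_res {x : N} : x ∈ v.res ↔ ∃ a, v.Fil 0 a ∧ v.co 0 a = x := Iff.rfl

/-- the value group -/
def Gam : AddSubgroup ℤ where
  carrier := {n | ∃ a x, v.HO a n x}
  zero_mem' := ⟨1, 1, HO.one⟩
  add_mem' := by
    rintro n m ⟨a, x, h⟩ ⟨b, y, h'⟩
    exact ⟨_, _, h.mul h'⟩
  neg_mem' := by
    rintro n ⟨a, x, h⟩
    obtain ⟨y, hy, _⟩ := h.inv
    exact ⟨_, _, hy⟩

lemma mem_Gam {n : ℤ} : n ∈ v.Gam ↔ ∃ a x, v.HO a n x := Iff.rfl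

variable {v}

lemma HO.zpow {a : B} {n : ℤ} {x : N} (h : v.HO a n x) (i : ℤ) :
    ∃ y, v.HO (a ^ i) (i * n) y := by
  obtain ⟨j, rfl | rfl⟩ := i.eq_nat_or_neg
  · rw [zpow_natCast]; exact h.pow j
  · obtain ⟨y, hy⟩ := h.pow j
    obtain ⟨z, hz, _⟩ := hy.inv
    refine ⟨z, ?_⟩
    rw [zpow_neg, zpow_natCast]
    exact hz.congr (by ring) rfl

/-- decomposition of leading coefficients -/
lemma decomp {a p : B} {n : ℤ} {x z : N} (h : v.HO a n x) (hp : v.HO p n z) :
    ∃ u ∈ v.res, x = u * z := by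
  obtain ⟨y, hy, _⟩ := hp.inv
  have h1 := (h.mul hy).congr (add_neg_cancel n) rfl
  have h2 := h1.mul hp
  rw [mul_assoc, inv_mul_cancel₀ hp.ne_zero, mul_one] at h2
  obtain ⟨_, h3⟩ := h2.uniq h
  refine ⟨_, ⟨_, h1.1, h1.2.1⟩, ?_⟩
  refine h3.symm.trans ?_
  simp

lemma stable {p : B} {γ : ℤ} {z : N} (hp : v.HO p γ z) {u : N} (hu : u ∈ v.res) :
    (σ ^ γ) u ∈ v.res := by
  obtain ⟨a, ha, rfl⟩ := hu
  by_cases h0 : v.co 0 a = 0
  · rw [h0, map_zero]; exact zero_mem _
  · have h1 : v.HO a 0 (v.co 0 a) := ⟨ha, rfl, h0⟩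
    obtain ⟨y, hy, hyz⟩ := h1.conj hp
    refine ⟨_, hy.1, ?_⟩
    rw [hy.2.1]
    have h2 : y * z = z * (σ ^ γ) (v.co 0 a) := by simpa using hyz
    rw [mul_comm z] at h2
    exact mul_right_cancel₀ hp.2.2 h2

/-- a non-commuting pair gives a nontrivial action -/
lemma commutes_of_fix {p : B} {γ : ℤ} {z : N} (hp : v.HO p γ z)
    (hγ : ∀ n ∈ v.Gam, ∃ i : ℤ, n = i * γ) (hfix : ∀ u ∈ v.res, (σ ^ γ) u = u)
    (a b : B) (n : ℤ) (x : N) (m : ℤ) (y : N) (ha : v.HO a n x) (hb : v.HO b m y) :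
    x * (σ ^ n) y = y * (σ ^ m) x := by
  obtain ⟨i, rfl⟩ := hγ n ⟨a, x, ha⟩
  obtain ⟨j, rfl⟩ := hγ m ⟨b, y, hb⟩
  obtain ⟨zi, hzi⟩ := hp.zpow i
  obtain ⟨zj, hzj⟩ := hp.zpow j
  obtain ⟨u, hu, rfl⟩ := decomp ha hzi
  obtain ⟨w, hw, rfl⟩ := decomp hb hzj
  have hfix' : ∀ (i : ℤ), ∀ u ∈ v.res, (σ ^ (i * γ)) u = u := by
    intro i u hu
    have h1 : σ ^ γ ∈ MulAction.stabilizer (N ≃ₐ[F] N) u := by
      rw [MulAction.mem_stabilizer_iff]
      exact hfix u hu
    have h2 := Subgroup.zpow_mem _ h1 i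
    rw [← zpow_mul, mul_comm γ i] at h2
    exact h2
  have h1 := hzi.mul hzj
  have h2 := hzj.mul hzi
  rw [← zpow_add₀ hp.ne_zero] at h1 h2
  rw [add_comm j i] at h2
  obtain ⟨_, h3⟩ := h1.uniq h2
  rw [map_mul, map_mul, hfix' i w hw, hfix' j u hu]
  calc u * zi * (w * (σ ^ (i * γ)) zj) = u * w * (zi * (σ ^ (i * γ)) zj) := by ring
    _ = u * w * (zj * (σ ^ (j * γ)) zi) := by rw [h3]
    _ = _ := by ring

end field

section trdeg

variable {F N L : Type*} [Field F] [Field N] [Algebra F N] [Field L] [Algebra F L]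
    {σ : N ≃ₐ[F] N} (v : SV F N L σ)

open Algebra in
/-- Abhyankar's inequality in the case needed. -/
theorem three_le_trdeg {z y : N} (hz : z ∈ v.res) (hy : y ∈ v.res) (htz : Transcendental F z)
    (hty : Transcendental F⟮z⟯ y) {ℓ : L} {m : ℤ} {x : N} (hℓ : v.HO ℓ m x) (hm : m ≠ 0) :
    3 ≤ Algebra.trdeg F L := by
  obtain ⟨Z, hZ, rfl⟩ := hz
  obtain ⟨Y, hY, rfl⟩ := hy
  set x1 : Unit → N := fun _ => v.co 0 Z with hx1
  have hi1 : AlgebraicIndependent F x1 := algebraicIndependent_unique_type_iff.mpr htz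
  set x2 : Option Unit → N := fun o => o.elim (v.co 0 Y) x1 with hx2
  have hi2 : AlgebraicIndependent F x2 := by
    refine (hi1.option_iff_transcendental _).mpr ?_
    intro hal
    apply hty
    obtain ⟨p, hp, hpe⟩ := hal
    have hle : ∀ s ∈ adjoin F (Set.range x1), s ∈ F⟮v.co 0 Z⟯ := by
      intro s hs
      have h1 : adjoin F (Set.range x1) ≤ F⟮v.co 0 Z⟯.toSubalgebra := by
        apply Algebra.adjoin_le
        rintro _ ⟨_, rfl⟩
        exact IntermediateField.mem_adjoin_simple_self F _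
      exact h1 hs
    let ι : adjoin F (Set.range x1) →+* F⟮v.co 0 Z⟯ :=
      { toFun := fun s => ⟨s, hle s s.2⟩
        map_one' := rfl
        map_mul' := fun _ _ => rfl
        map_zero' := rfl
        map_add' := fun _ _ => rfl }
    have hι : Function.Injective ι := by
      intro s t hst
      exact Subtype.ext (congrArg (fun q : F⟮v.co 0 Z⟯ => (q : N)) hst)
    refine ⟨p.map ι, ?_, ?_⟩
    · rwa [Ne, Polynomial.map_eq_zero_iff hι]
    · rw [Polynomial.aeval_def, Polynomial.eval₂_map]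
      exact hpe
  set X2 : Option Unit → v.vring := fun o => o.elim ⟨Y, hY⟩ (fun _ => ⟨Z, hZ⟩) with hX2
  have hcomp : (v.resHom ∘ X2) = x2 := by
    funext o
    cases o <;> rfl
  have hI2 : AlgebraicIndependent F X2 := AlgebraicIndependent.of_comp v.resHom (hcomp ▸ hi2)
  have hI2' : AlgebraicIndependent F (v.vring.val ∘ X2) :=
    hI2.map' (f := v.vring.val) Subtype.val_injective
  have hord : ∀ s ∈ adjoin F (Set.range (v.vring.val ∘ X2)), s ≠ 0 → ∃ w, v.HO s 0 w := by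
    intro s hs hs0
    rw [Algebra.adjoin_range_eq_range_aeval] at hs
    obtain ⟨P, rfl⟩ := hs
    have h1 : (MvPolynomial.aeval (v.vring.val ∘ X2)) P = v.vring.val (MvPolynomial.aeval X2 P) := by
      exact (MvPolynomial.comp_aeval_apply X2 v.vring.val P).symm
    have h1' : (MvPolynomial.aeval (v.vring.val ∘ X2) : MvPolynomial (Option Unit) F →ₐ[F] L).toRingHom P
        = v.vring.val (MvPolynomial.aeval X2 P) := h1
    rw [h1'] at hs0 ⊢
    have hP : P ≠ 0 := by
      rintro rfl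
      exact hs0 (by rw [map_zero, map_zero])
    refine ⟨v.resHom (MvPolynomial.aeval X2 P), (MvPolynomial.aeval X2 P).2, rfl, ?_⟩
    have h2 : v.resHom (MvPolynomial.aeval X2 P) = MvPolynomial.aeval x2 P := by
      rw [← hcomp]
      exact MvPolynomial.comp_aeval_apply X2 v.resHom P
    rw [h2]
    intro h3
    exact hP (hi2.eq_zero_of_aeval_eq_zero P h3)
  have hI3 := (hI2'.option_iff_transcendental ℓ).mpr (by
    rw [transcendental_iff]
    intro p hp
    by_contra hp0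
    rw [Polynomial.aeval_def, Polynomial.eval₂_eq_sum, Polynomial.sum_def] at hp
    refine sum_ne_zero (v := v) (n := fun i => (i : ℤ) * m) (Polynomial.support_nonempty.mpr hp0)
      ?_ ?_ hp
    · intro i _ j _ hij
      have := mul_right_cancel₀ hm hij
      exact_mod_cast this
    · intro i hi
      obtain ⟨w, hw⟩ := hord (p.coeff i) (p.coeff i).2 (by
        intro h0
        exact (Polynomial.mem_support_iff.mp hi) (Subtype.ext h0))
      obtain ⟨q, hq⟩ := hℓ.pow i
      exact ⟨_, (hw.mul hq).congr (zero_add _) rfl⟩)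
  have h3 := hI3.lift_cardinalMk_le_trdeg
  have h4 : Cardinal.mk (Option (Option Unit)) = 3 := by
    norm_num
  rw [h4] at h3
  simpa using h3

end trdeg

end SV

end Pool.Agent.H.MP_4c5958_al
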