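import Pool.Agent.H.MP_4c5958_al.SkewVal2

/-!
# Skew valuations: the final argument
-/

set_option autoImplicit false

noncomputable section

open scoped IntermediateField

namespace Pool.Agent.H.MP_4c5958_al

lemma alg_trans {F N S : Type*} [Field F] [Field N] [Algebra F N] [Field S] [Algebra S N]
    (R' : IntermediateField F N) (hR : ∀ y ∈ R', IsAlgebraic S y) {e : N}
    (he : IsAlgebraic R' e) : IsAlgebraic S e := by
  let ι : R' →+* algebraicClosure S N :=
    { toFun := fun y => ⟨y, mem_algebraicClosure_iff.mpr (hR y y.2)⟩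
      map_one' := rfl
      map_mul' := fun _ _ => rfl
      map_zero' := rfl
      map_add' := fun _ _ => rfl }
  obtain ⟨p, hp, hpe⟩ := he
  have h1 : IsAlgebraic (algebraicClosure S N) e := by
    refine ⟨p.map ι, ?_, ?_⟩
    · rwa [Ne, Polynomial.map_eq_zero_iff ι.injective]
    · rw [Polynomial.aeval_def, Polynomial.eval₂_map]
      exact hpe
  exact h1.restrictScalars S

namespace SV

section main

variable {F N B : Type*} (L : Type*) [Field F] [Field N] [Algebra F N] [DivisionRing B]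
    [Algebra F B] {σ : N ≃ₐ[F] N} (v : SV F N B σ) [Field L] [Algebra F L] [Algebra L B]
    [IsScalarTower F L B]

/-- the restriction of `v` to the centre -/
def cen : SV F N L σ := v.comap (IsScalarTower.toAlgHom F L B) (algebraMap L B).injective

lemma cen_co (n : ℤ) (ℓ : L) : (v.cen L).co n ℓ = v.co n (algebraMap L B ℓ) := rfl

lemma cen_Fil (n : ℤ) (ℓ : L) : (v.cen L).Fil n ℓ ↔ v.Fil n (algebraMap L B ℓ) := Iff.rfl

lemma cen_HO (n : ℤ) (ℓ : L) (x : N) : (v.cen L).HO ℓ n x ↔ v.HO (algebraMap L B ℓ) n x := Iff.rfl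

variable [FiniteDimensional L B]

open Polynomial in
lemma res_alg {u : N} (hu : u ∈ v.res) : IsAlgebraic (v.cen L).res u := by
  classical
  obtain ⟨a, ha, rfl⟩ := hu
  have hint : IsIntegral L a := Algebra.IsIntegral.isIntegral a
  set p := minpoly L a with hp
  have hp0 : p ≠ 0 := minpoly.ne_zero hint
  have hpa : aeval a p = 0 := minpoly.aeval L a
  have hex : ∀ i, ∃ n : ℤ, i ∈ p.support → ∃ x, (v.cen L).HO (p.coeff i) n x := by
    intro i
    by_cases hi : i ∈ p.support
    · obtain ⟨n, x, hx⟩ := (v.cen L).exists_HO (mem_support_iff.mp hi)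
      exact ⟨n, fun _ => ⟨x, hx⟩⟩
    · exact ⟨0, fun h => absurd h hi⟩
  choose n hn using hex
  obtain ⟨i0, hi0, hmin⟩ := p.support.exists_min_image n (support_nonempty.mpr hp0)
  obtain ⟨x0, hx0⟩ := hn i0 hi0
  obtain ⟨y0, hy0, _⟩ := hx0.inv
  have hq : ∀ i, (v.cen L).Fil 0 (p.coeff i * (p.coeff i0)⁻¹) := by
    intro i
    by_cases hi : i ∈ p.support
    · obtain ⟨x, hx⟩ := hn i hi
      exact (hx.mul hy0).1.mono (by have := hmin i hi; omega)
    · rw [notMem_support_iff.mp hi, zero_mul]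
      exact Fil.zero 0
  set qbar : (v.cen L).res[X] := ∑ i ∈ Finset.range (p.natDegree + 1),
    monomial i ⟨(v.cen L).co 0 (p.coeff i * (p.coeff i0)⁻¹), ⟨_, hq i, rfl⟩⟩ with hqbar
  refine ⟨qbar, ?_, ?_⟩
  · intro h0
    have h1 := congrArg (fun r => r.coeff i0) h0
    simp only [hqbar, finsetSum_coeff, coeff_monomial, coeff_zero] at h1
    rw [Finset.sum_eq_single i0] at h1
    · rw [if_pos rfl] at h1
      have h2 := congrArg (fun q : (v.cen L).res => (q : N)) h1
      simp only at h2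
      rw [mul_inv_cancel₀ (mem_support_iff.mp hi0)] at h2
      rw [co_one] at h2
      exact one_ne_zero h2
    · intro i _ hne
      rw [if_neg hne]
    · intro hcon
      exfalso
      apply hcon
      rw [Finset.mem_range]
      exact Nat.lt_succ_of_le (le_natDegree_of_mem_supp i0 hi0)
  · rw [hqbar, map_sum]
    have h1 : ∀ i ∈ Finset.range (p.natDegree + 1),
        (aeval (v.co 0 a)) (monomial i (⟨(v.cen L).co 0 (p.coeff i * (p.coeff i0)⁻¹),
          ⟨_, hq i, rfl⟩⟩ : (v.cen L).res)) =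
        v.co 0 (algebraMap L B (p.coeff i0)⁻¹ * (p.coeff i • a ^ i)) := by
      intro i _
      rw [aeval_monomial, Algebra.smul_def, ← mul_assoc, ← map_mul, mul_comm (p.coeff i0)⁻¹,
        co_mul0 (v := v) ((cen_Fil L v _ _).mp (hq i)) (ha.pow0 i), co_pow0 ha]
      rfl
    rw [Finset.sum_congr rfl h1, ← map_sum, ← Finset.mul_sum, ← aeval_eq_sum_range, hpa, mul_zero,
      map_zero]

open Polynomial in
lemma exists_ord_center {b : B} {γ : ℤ} {z : N} (hb : v.HO b γ z) (hγ : γ ≠ 0) :
    ∃ (ℓ : L) (m : ℤ) (x : N), (v.cen L).HO ℓ m x ∧ m ≠ 0 := by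
  by_contra hcon
  push Not at hcon
  have hint : IsIntegral L b := Algebra.IsIntegral.isIntegral b
  set p := minpoly L b with hp
  have hp0 : p ≠ 0 := minpoly.ne_zero hint
  have hpa : aeval b p = 0 := minpoly.aeval L b
  rw [Polynomial.aeval_def, Polynomial.eval₂_eq_sum, Polynomial.sum_def] at hpa
  refine sum_ne_zero (v := v) (n := fun i => (i : ℤ) * γ) (Polynomial.support_nonempty.mpr hp0)
    ?_ ?_ hpa
  · intro i _ j _ hij
    have := mul_right_cancel₀ hγ hij
    exact_mod_cast this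
  · intro i hi
    obtain ⟨m, w, hw⟩ := (v.cen L).exists_HO (mem_support_iff.mp hi)
    have hm := hcon _ _ _ hw
    subst hm
    obtain ⟨q, hq⟩ := hb.pow i
    exact ⟨_, (((cen_HO L v _ _ _).mp hw).mul hq).congr (zero_add _) rfl⟩

end main

section final

variable {F B L : Type*} [Field F] {k : ℕ} [DivisionRing B]
    [Algebra F B] {σ : NN F k ≃ₐ[F] NN F k} (v : SV F (NN F k) B σ) [Field L] [Algebra F L]
    [Algebra L B] [IsScalarTower F L B] [FiniteDimensional L B] [Algebra.IsCentral L B]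

include v in
theorem final (hF : ∀ x : F, x ^ 2 + x - 1 ≠ 0) (hσ : σ ^ 5 = 1)
    (h25 : Module.finrank L B = 25) : 3 ≤ Algebra.trdeg F L := by
  have h5 : (5 : F) ≠ 0 := fun h => hF 2 (by linear_combination h)
  obtain ⟨γ, hγ⟩ := Int.subgroup_cyclic v.Gam
  have hγmem : γ ∈ v.Gam := by
    rw [hγ]; exact AddSubgroup.subset_closure rfl
  have hgen : ∀ n ∈ v.Gam, ∃ i : ℤ, n = i * γ := by
    intro n hn
    rw [hγ, AddSubgroup.mem_closure_singleton] at hn
    obtain ⟨i, hi⟩ := hn
    exact ⟨i, by rw [← hi, smul_eq_mul]⟩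
  obtain ⟨p, z, hp⟩ := hγmem
  have hnot : ¬ ∀ u ∈ v.res, (σ ^ γ) u = u := fun hfix =>
    case_one (v := v) (L := L) h25 h5 (commutes_of_fix hp hgen hfix)
  have hγ0 : γ ≠ 0 := by
    rintro rfl
    exact hnot fun u _ => by simp
  obtain ⟨ℓ, m, x, hℓ, hm⟩ := v.exists_ord_center L hp hγ0
  by_contra htr
  have hsmall : (∀ e ∈ v.res, IsAlgebraic F e) ∨ ∃ z : NN F k, Transcendental F z ∧
      ∀ e ∈ v.res, IsAlgebraic (IntermediateField.adjoin F {z}) e := by
    by_cases hall : ∀ y ∈ (v.cen L).res, IsAlgebraic F y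
    · left
      intro e he
      exact alg_trans _ hall (v.res_alg L he)
    · right
      push Not at hall
      obtain ⟨z, hz, hztr⟩ := hall
      refine ⟨z, hztr, ?_⟩
      have hall' : ∀ y ∈ (v.cen L).res, IsAlgebraic (IntermediateField.adjoin F {z}) y := by
        intro y hy
        by_contra hytr
        exact htr ((v.cen L).three_le_trdeg hz hy hztr hytr hℓ hm)
      intro e he
      exact alg_trans _ hall' (v.res_alg L he)
  refine hnot (aut_trivial_of_small hF v.res hsmall (σ ^ γ) ?_ (fun u hu => stable hp hu))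
  intro x
  have h1 : (σ ^ γ) ^ 5 = 1 := by
    rw [← zpow_natCast, ← zpow_mul, mul_comm, zpow_mul, zpow_natCast, hσ, one_zpow]
  have h2 := congrArg (fun f : NN F k ≃ₐ[F] NN F k => f x) h1
  simpa [pow_succ] using h2

end final

end SV

end Pool.Agent.H.MP_4c5958_al
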