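import Mathlib

/-!
# Wedderburn's factorisation and the sum of conjugates

For an algebraic element `a` of a division ring `E` with centre `L` there are `n` conjugates of
`a`, `n` the degree of `a` over `L`, whose sum lies in `L`.
-/

set_option autoImplicit false

noncomputable section

namespace Pool.Agent.H.MP_4c5958_al

open Polynomial

section div

variable {E : Type*} [DivisionRing E]

lemma eval_mul_ne {p q : E[X]} {c : E} (h : q.eval c ≠ 0) :
    (p * q).eval c = p.eval (q.eval c * c * (q.eval c)⁻¹) * q.eval c := by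
  induction p using Polynomial.induction_on' with
  | add p p' hp hp' => rw [add_mul, eval_add, eval_add, hp, hp', add_mul]
  | monomial n r =>
    rw [eval_monomial, ← C_mul_X_pow_eq_monomial, mul_assoc, X_pow_mul, eval_C_mul,
      eval_mul_X_pow]
    set v := q.eval c
    have : (v * c * v⁻¹) ^ n = v * c ^ n * v⁻¹ := by
      induction n with
      | zero => simp [h]
      | succ n ih =>
        rw [pow_succ, ih, pow_succ]
        calc v * c ^ n * v⁻¹ * (v * c * v⁻¹) = v * c ^ n * (v⁻¹ * v) * c * v⁻¹ := by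
              simp only [mul_assoc]
          _ = _ := by rw [inv_mul_cancel₀ h]; simp only [mul_assoc, one_mul]
    rw [this]
    simp only [mul_assoc]
    rw [inv_mul_cancel₀ h, mul_one]

lemma exists_factor (p : E[X]) (c : E) : ∃ q : E[X], p = q * (X - C c) + C (p.eval c) := by
  induction p using Polynomial.induction_on' with
  | add p p' hp hp' =>
    obtain ⟨q, hq⟩ := hp
    obtain ⟨q', hq'⟩ := hp'
    refine ⟨q + q', ?_⟩
    rw [eval_add, map_add, add_mul]
    nth_rewrite 1 [hq, hq']
    abel
  | monomial n r =>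
    refine ⟨C r * ∑ i ∈ Finset.range n, X ^ i * (C c) ^ (n - 1 - i), ?_⟩
    have hc : Commute (X : E[X]) (C c) := (commute_X (C c))
    rw [mul_assoc, hc.geom_sum₂_mul, mul_sub, C_mul_X_pow_eq_monomial, eval_monomial, map_mul,
      map_pow]
    abel

lemma exists_factor_of_root {p : E[X]} {c : E} (h : p.eval c = 0) :
    ∃ q : E[X], p = q * (X - C c) := by
  obtain ⟨q, hq⟩ := exists_factor p c
  refine ⟨q, ?_⟩
  rw [h, map_zero, add_zero] at hq
  exact hq

end div

section alg

variable {L E : Type*} [Field L] [DivisionRing E] [Algebra L E]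

/-- the minimal polynomial with coefficients in `E` -/
def fE (L : Type*) {E : Type*} [Field L] [DivisionRing E] [Algebra L E] (a : E) : E[X] :=
  (minpoly L a).map (algebraMap L E)

lemma eval_fE_self (a : E) : (fE L a).eval a = 0 := by
  unfold fE
  rw [eval_map, ← aeval_def, minpoly.aeval]

lemma fE_comm (a d : E) : fE L a * C d = C d * fE L a := by
  ext i
  rw [coeff_mul_C, coeff_C_mul]
  unfold fE
  rw [coeff_map]
  exact Algebra.commutes _ _

lemma eval_fE_conj (a : E) {d : E} (hd : d ≠ 0) : (fE L a).eval (d * a * d⁻¹) = 0 := by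
  have h1 : (fE L a * C d).eval a = 0 := by
    rw [fE_comm, eval_C_mul, eval_fE_self, mul_zero]
  have h2 : (C d : E[X]).eval a ≠ 0 := by rw [eval_C]; exact hd
  rw [eval_mul_ne h2, eval_C] at h1
  exact (mul_eq_zero.mp h1).resolve_right hd

lemma eval_conj (h : E[X]) {d : E} (hd : d ≠ 0) (c : E) :
    (C d * h * C d⁻¹).eval c = d * h.eval (d⁻¹ * c * d) * d⁻¹ := by
  rw [mul_assoc, eval_C_mul]
  have h2 : (C d⁻¹ : E[X]).eval c ≠ 0 := by rw [eval_C]; exact inv_ne_zero hd
  rw [eval_mul_ne h2, eval_C, inv_inv]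
  simp only [mul_assoc]

variable [Algebra.IsCentral L E]

/-- a monic polynomial vanishing at all conjugates of `a` has degree at least `deg a` -/
lemma min_vanish {a : E} (h : E[X]) (hm : h.Monic)
    (hv : ∀ d : E, d ≠ 0 → h.eval (d * a * d⁻¹) = 0) :
    (minpoly L a).natDegree ≤ h.natDegree := by
  classical
  let P : ℕ → Prop := fun m => ∃ h : E[X], h.Monic ∧ h.natDegree = m ∧
    ∀ d : E, d ≠ 0 → h.eval (d * a * d⁻¹) = 0
  have hP : ∃ m, P m := ⟨_, h, hm, rfl, hv⟩
  obtain ⟨g, gm, gd, gv⟩ := Nat.find_spec hP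
  have hle : g.natDegree ≤ h.natDegree := by
    rw [gd]; exact Nat.find_min' hP ⟨h, hm, rfl, hv⟩
  refine le_trans ?_ hle
  -- the coefficients of g are central
  have hcent : ∀ d : E, d ≠ 0 → C d * g * C d⁻¹ = g := by
    intro d hd
    by_contra hne
    set g' := C d * g * C d⁻¹ with hg'
    have hd' : (d⁻¹ : E) ≠ 0 := inv_ne_zero hd
    have g'coeff : ∀ i, g'.coeff i = d * g.coeff i * d⁻¹ := by
      intro i; rw [hg', coeff_mul_C, coeff_C_mul]
    have hdeg : g'.natDegree = g.natDegree := by
      apply le_antisymm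
      · rw [natDegree_le_iff_coeff_eq_zero]
        intro N hN
        rw [g'coeff, coeff_eq_zero_of_natDegree_lt hN, mul_zero, zero_mul]
      · apply le_natDegree_of_ne_zero
        rw [g'coeff, coeff_natDegree, gm.leadingCoeff, mul_one, mul_inv_cancel₀ hd]
        exact one_ne_zero
    have g'm : g'.Monic := by
      rw [Monic, leadingCoeff, hdeg, g'coeff, coeff_natDegree, gm.leadingCoeff, mul_one,
        mul_inv_cancel₀ hd]
    have hsub : g - g' ≠ 0 := fun h0 => hne (sub_eq_zero.mp h0).symm
    have hdeg2 : (g - g').natDegree < g.natDegree := by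
      apply natDegree_lt_natDegree hsub
      refine degree_sub_lt_left ?_ gm.ne_zero ?_
      · rw [degree_eq_natDegree gm.ne_zero, degree_eq_natDegree g'm.ne_zero, hdeg]
      · rw [gm.leadingCoeff, g'm.leadingCoeff]
    have hlc : (g - g').leadingCoeff ≠ 0 := leadingCoeff_ne_zero.mpr hsub
    have hPm : P (g - g').natDegree := by
      refine ⟨C ((g - g').leadingCoeff)⁻¹ * (g - g'), ?_, ?_, ?_⟩
      · rw [Monic, leadingCoeff_mul, leadingCoeff_C, inv_mul_cancel₀ hlc]
      · rw [natDegree_C_mul (inv_ne_zero hlc)]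
      · intro e he
        rw [eval_C_mul, eval_sub, gv e he, hg', eval_conj g hd]
        have e1 : d⁻¹ * (e * a * e⁻¹) * d = (d⁻¹ * e) * a * (d⁻¹ * e)⁻¹ := by
          rw [mul_inv_rev, inv_inv]; simp only [mul_assoc]
        rw [e1, gv _ (mul_ne_zero hd' he)]
        simp
    have := Nat.find_min' hP hPm
    rw [← gd] at this
    omega
  have hcoef : ∀ i, g.coeff i ∈ Set.range (algebraMap L E) := by
    intro i
    have hmem : g.coeff i ∈ Subalgebra.center L E := by
      rw [Subalgebra.mem_center_iff]
      intro d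
      by_cases hd : d = 0
      · rw [hd, zero_mul, mul_zero]
      · have h1 := congrArg (fun p => coeff p i) (hcent d hd)
        simp only [coeff_mul_C, coeff_C_mul] at h1
        calc d * g.coeff i = (d * g.coeff i * d⁻¹) * d := by
              rw [mul_assoc, inv_mul_cancel₀ hd, mul_one]
          _ = g.coeff i * d := by rw [h1]
    have := Algebra.IsCentral.out hmem
    rwa [Algebra.mem_bot] at this
  obtain ⟨q, hq, hqd, hqm⟩ := lifts_and_natDegree_eq_and_monic
    ((lifts_iff_coeff_lifts g).mpr hcoef) gm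
  rw [← hqd]
  apply natDegree_le_natDegree
  apply minpoly.min L a hqm
  have h1 := gv 1 one_ne_zero
  rw [one_mul, inv_one, mul_one, ← hq, eval_map, ← aeval_def] at h1
  exact h1

/-- Wedderburn's factorisation theorem, in the form we need. -/
theorem wedderburn_sum {a : E} (ha : IsIntegral L a) :
    ∃ d : Fin (minpoly L a).natDegree → E, (∀ i, d i ≠ 0) ∧
      ∃ T : L, ∑ i, d i * a * (d i)⁻¹ = algebraMap L E T := by
  set n := (minpoly L a).natDegree with hn
  have hfm : (fE L a).Monic := (minpoly.monic ha).map _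
  have hfd : (fE L a).natDegree = n := by
    unfold fE; rw [natDegree_map]
  have key : ∀ r ≤ n, ∃ (d : Fin r → E) (g h : E[X]), (∀ i, d i ≠ 0) ∧ fE L a = g * h ∧
      h.Monic ∧ h.natDegree = r ∧ h.nextCoeff = -∑ i, d i * a * (d i)⁻¹ := by
    intro r
    induction r with
    | zero =>
      intro _
      refine ⟨Fin.elim0, fE L a, 1, fun i => i.elim0, (mul_one _).symm, monic_one,
        natDegree_one, ?_⟩
      simp [nextCoeff]
    | succ r ih =>
      intro hr
      obtain ⟨d, g, h, hd, hf, hmon, hdeg, hnext⟩ := ih (by omega)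
      have hex : ∃ e : E, e ≠ 0 ∧ h.eval (e * a * e⁻¹) ≠ 0 := by
        by_contra hcon
        push Not at hcon
        have := min_vanish (L := L) h hmon hcon
        omega
      obtain ⟨e, he, hev⟩ := hex
      set c := e * a * e⁻¹ with hc
      set v := h.eval c with hv
      have h1 := eval_fE_conj (L := L) a he
      rw [hf, ← hc, eval_mul_ne hev] at h1
      have h2 : g.eval (v * c * v⁻¹) = 0 := (mul_eq_zero.mp h1).resolve_right hev
      obtain ⟨g₁, hg₁⟩ := exists_factor_of_root h2
      have hcc : v * c * v⁻¹ = (v * e) * a * (v * e)⁻¹ := by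
        rw [hc, mul_inv_rev]; simp only [mul_assoc]
      refine ⟨Fin.cons (v * e) d, g₁, (X - C (v * c * v⁻¹)) * h, ?_, ?_, ?_, ?_, ?_⟩
      · intro i
        refine Fin.cases ?_ (fun j => ?_) i
        · rw [Fin.cons_zero]; exact mul_ne_zero hev he
        · rw [Fin.cons_succ]; exact hd j
      · rw [← mul_assoc, ← hg₁, hf]
      · exact (monic_X_sub_C _).mul hmon
      · rw [(monic_X_sub_C _).natDegree_mul hmon, natDegree_X_sub_C, hdeg, add_comm]
      · rw [(monic_X_sub_C _).nextCoeff_mul hmon, nextCoeff_X_sub_C, hnext, Fin.sum_univ_succ]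
        simp only [Fin.cons_zero, Fin.cons_succ]
        rw [hcc, neg_add]
  obtain ⟨d, g, h, hd, hf, hmon, hdeg, hnext⟩ := key n le_rfl
  refine ⟨d, hd, -(minpoly L a).nextCoeff, ?_⟩
  have hgm : g.Monic := by
    apply Monic.of_mul_monic_right hmon
    rw [← hf]; exact hfm
  have hg1 : g = 1 := by
    have h1 := hgm.natDegree_mul hmon
    rw [← hf, hfd, hdeg] at h1
    exact hgm.natDegree_eq_zero.mp (by omega)
  have h1 : (fE L a).nextCoeff = algebraMap L E (minpoly L a).nextCoeff := by
    unfold fE
    exact nextCoeff_map (algebraMap L E).injective _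
  rw [hf, hg1, one_mul, hnext] at h1
  rw [map_neg, ← h1, neg_neg]

end alg

/-- the degree of an element divides the dimension -/
theorem natDegree_dvd {L E : Type*} [Field L] [DivisionRing E] [Algebra L E]
    [FiniteDimensional L E] (a : E) :
    (minpoly L a).natDegree ∣ Module.finrank L E := by
  have ha : IsIntegral L a := Algebra.IsIntegral.isIntegral a
  set p := minpoly L a with hp
  have hirr : Irreducible p := minpoly.irreducible ha
  let I : Ideal L[X] := Ideal.span {p}
  have hmax : I.IsMaximal := PrincipalIdealRing.isMaximal_of_irreducible hirr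
  letI : Field (L[X] ⧸ I) := Ideal.Quotient.field I
  let φ : (L[X] ⧸ I) →ₐ[L] E := Ideal.Quotient.liftₐ I (aeval a) (by
    intro x hx
    obtain ⟨y, rfl⟩ := Ideal.mem_span_singleton'.mp hx
    rw [map_mul, hp, minpoly.aeval, mul_zero])
  letI : Module (L[X] ⧸ I) E := Module.compHom E φ.toRingHom
  have hsc : IsScalarTower L (L[X] ⧸ I) E := by
    refine ⟨fun l m x => ?_⟩
    show φ (l • m) * x = l • (φ m * x)
    rw [map_smul, smul_mul_assoc]
  have h1 := Module.finrank_mul_finrank L (L[X] ⧸ I) E
  have h2 : Module.finrank L (L[X] ⧸ I) = p.natDegree := finrank_quotient_span_eq_natDegree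
  rw [h2] at h1
  exact ⟨_, h1.symm⟩

end Pool.Agent.H.MP_4c5958_al
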